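import Pool.Agent.SawLim92.PathLaw

/-!
The law of planar Brownian motion: independent increments, symmetries, scaling.
-/

set_option autoImplicit false

open MeasureTheory ProbabilityTheory Filter Topology
open scoped NNReal

namespace Pool.Agent.SawLim

section

variable {Ω : Type*} [MeasurableSpace Ω] {P : Measure Ω}

/-- two independent families, each of them independent: the pairs are independent -/
lemma iIndep_pair [IsProbabilityMeasure P] {ι : Type*} [Fintype ι] {a b : ι → Ω → ℝ}
    (ma : ∀ i, Measurable (a i)) (mb : ∀ i, Measurable (b i)) (ha : iIndepFun a P)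
    (hb : iIndepFun b P) (hab : IndepFun (fun ω i => a i ω) (fun ω i => b i ω) P) :
    iIndepFun (fun i ω => (a i ω, b i ω)) P := by
  rw [iIndepFun_iff_map_fun_eq_pi_map (fun i => ((ma i).prodMk (mb i)).aemeasurable)]
  have h1 : ∀ i, P.map (fun ω => (a i ω, b i ω)) = (P.map (a i)).prod (P.map (b i)) := by
    intro i
    have : IndepFun (a i) (b i) P := hab.comp (measurable_pi_apply i) (measurable_pi_apply i)
    exact this.map_prod_eq_prod_map_map (ma i).aemeasurable (mb i).aemeasurable
  have h2 := hab.map_prod_eq_prod_map_map (measurable_pi_lambda _ ma).aemeasurable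
    (measurable_pi_lambda _ mb).aemeasurable
  rw [ha.map_fun_eq_pi_map (fun i => (ma i).aemeasurable),
    hb.map_fun_eq_pi_map (fun i => (mb i).aemeasurable)] at h2
  have hpa : ∀ i, IsProbabilityMeasure (P.map (a i)) := fun i =>
    Measure.isProbabilityMeasure_map (ma i).aemeasurable
  have hpb : ∀ i, IsProbabilityMeasure (P.map (b i)) := fun i =>
    Measure.isProbabilityMeasure_map (mb i).aemeasurable
  have h3 := measurePreserving_arrowProdEquivProdArrow ℝ ℝ ι (fun i => P.map (a i))
    (fun i => P.map (b i))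
  have h4 : P.map (fun ω i => (a i ω, b i ω)) =
      (P.map (fun ω => ((fun i => a i ω), (fun i => b i ω)))).map
        (MeasurableEquiv.arrowProdEquivProdArrow ℝ ℝ ι).symm := by
    rw [Measure.map_map (MeasurableEquiv.measurable _)
      ((measurable_pi_lambda _ ma).prodMk (measurable_pi_lambda _ mb))]
    rfl
  rw [h4, h2]
  simp_rw [h1]
  exact (h3.symm _).map_eq

/-- planar Brownian motion has independent increments -/
lemma pbm_incr [IsProbabilityMeasure P] {c : ℝ} {B1 B2 : ℝ≥0 → Ω → ℝ} (h : PBM P B1 B2)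
    {W : Ω → C(unitInterval, EuclideanSpace ℝ (Fin 2))} (r : Repr P c B1 B2 W) :
    HasIndepIncrements (fun (t : unitInterval) ω => W ω t) P := by
  intro n t ht
  let u : Fin (n + 1) → ℝ≥0 := fun i => unitInterval.toNNReal (t i)
  have hu : Monotone u := by
    intro i j hij
    have := ht hij
    show unitInterval.toNNReal (t i) ≤ unitInterval.toNNReal (t j)
    exact this
  have ha := h.b1.hasIndepIncrements n u hu
  have hb := h.b2.hasIndepIncrements n u hu
  have hab : IndepFun (fun ω (i : Fin n) => B1 (u i.succ) ω - B1 (u i.castSucc) ω)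
      (fun ω (i : Fin n) => B2 (u i.succ) ω - B2 (u i.castSucc) ω) P := by
    have m : Measurable (fun (z : ℝ≥0 → ℝ) (i : Fin n) => z (u i.succ) - z (u i.castSucc)) := by
      apply measurable_pi_lambda
      intro i
      fun_prop
    exact h.ind.comp m m
  have hp := iIndep_pair (a := fun (i : Fin n) ω => B1 (u i.succ) ω - B1 (u i.castSucc) ω)
    (b := fun (i : Fin n) ω => B2 (u i.succ) ω - B2 (u i.castSucc) ω)
    (fun i => (h.m1 _).sub (h.m1 _)) (fun i => (h.m2 _).sub (h.m2 _)) ha hb hab
  have hcomp := hp.comp (fun _ (z : ℝ × ℝ) => (!₂[c * z.1, c * z.2] : EuclideanSpace ℝ (Fin 2)))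
    (fun _ => by fun_prop)
  refine hcomp.congr ?_
  intro i
  filter_upwards [r] with ω hω
  rw [hω, hω]
  ext j
  fin_cases j
  · simp [u]; ring
  · simp [u]; ring

/-- time-space scaling of a curve: `(R x)(t) = κ x(λ t)` -/
noncomputable def rsc (κ : ℝ) (lam : unitInterval) (x : C(unitInterval, EuclideanSpace ℝ (Fin 2))) :
    C(unitInterval, EuclideanSpace ℝ (Fin 2)) :=
  κ • x.comp ⟨fun t => lam * t, by fun_prop⟩

lemma rsc_apply (κ : ℝ) (lam : unitInterval) (x : C(unitInterval, EuclideanSpace ℝ (Fin 2)))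
    (t : unitInterval) : rsc κ lam x t = κ • x (lam * t) := rfl

lemma continuous_rsc (κ : ℝ) (lam : unitInterval) : Continuous (rsc κ lam) :=
  (ContinuousMap.continuous_precomp _).const_smul κ

end

section

variable {Ω : Type*} [MeasurableSpace Ω] {P : Measure Ω}
  [MeasurableSpace C(unitInterval, EuclideanSpace ℝ (Fin 2))]
  [BorelSpace C(unitInterval, EuclideanSpace ℝ (Fin 2))]
  {c : ℝ} {B1 B2 : ℝ≥0 → Ω → ℝ} {W : Ω → C(unitInterval, EuclideanSpace ℝ (Fin 2))}

lemma pbm_swap (h : PBM P B1 B2) : PBM P B2 B1 := ⟨h.m2, h.m1, h.b2, h.b1, h.ind.symm⟩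

lemma pbm_neg (h : PBM P B1 B2) : PBM P B1 (-B2) := by
  refine ⟨h.m1, fun t => (h.m2 t).neg, h.b1, h.b2.neg, ?_⟩
  have m : Measurable (fun (z : ℝ≥0 → ℝ) => -z) := measurable_neg
  exact h.ind.comp measurable_id m

lemma pbm_scale (h : PBM P B1 B2) {a : ℝ≥0} (ha : a ≠ 0) :
    PBM P (fun t ω => (Real.sqrt a)⁻¹ * B1 (a * t) ω) (fun t ω => (Real.sqrt a)⁻¹ * B2 (a * t) ω) := by
  refine ⟨fun t => (h.m1 _).const_mul _, fun t => (h.m2 _).const_mul _, h.b1.smul ha, h.b2.smul ha,
    ?_⟩
  have m : Measurable (fun (z : ℝ≥0 → ℝ) (t : ℝ≥0) => (Real.sqrt a)⁻¹ * z (a * t)) := by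
    apply measurable_pi_lambda
    intro t
    fun_prop
  exact h.ind.comp m m

variable [IsProbabilityMeasure P]

lemma map_swap (h : PBM P B1 B2) (hW : Measurable W) (r : Repr P c B1 B2 W) :
    (P.map W).map (act (fun _ => 1) (Equiv.swap 0 1)) = P.map W := by
  have hm : Measurable (act (fun _ => 1) (Equiv.swap 0 1)) := (continuous_act _ _).measurable
  rw [Measure.map_map hm hW]
  apply law_repr (pbm_swap h) h (hm.comp hW) hW ?_ r
  filter_upwards [r] with ω hω t
  show act (fun _ => 1) (Equiv.swap 0 1) (W ω) t = _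
  rw [act_apply, hω]
  ext j
  fin_cases j <;> simp

lemma map_neg' (h : PBM P B1 B2) (hW : Measurable W) (r : Repr P c B1 B2 W) :
    (P.map W).map (act ![1, -1] 1) = P.map W := by
  have hm : Measurable (act ![1, -1] 1) := (continuous_act _ _).measurable
  rw [Measure.map_map hm hW]
  apply law_repr (pbm_neg h) h (hm.comp hW) hW ?_ r
  filter_upwards [r] with ω hω t
  show act ![1, -1] 1 (W ω) t = _
  rw [act_apply, hω]
  ext j
  fin_cases j <;> simp

lemma map_scale (h : PBM P B1 B2) (hW : Measurable W) (r : Repr P c B1 B2 W) (lam : unitInterval)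
    (hl : 0 < (lam : ℝ)) :
    (P.map W).map (rsc (Real.sqrt lam)⁻¹ lam) = P.map W := by
  have hm : Measurable (rsc (Real.sqrt lam)⁻¹ lam) := (continuous_rsc _ _).measurable
  have ha : unitInterval.toNNReal lam ≠ 0 := by
    intro h0
    have := congrArg (fun z : ℝ≥0 => (z : ℝ)) h0
    simp at this
    rw [this] at hl
    simp at hl
  rw [Measure.map_map hm hW]
  apply law_repr (pbm_scale h ha) h (hm.comp hW) hW ?_ r
  filter_upwards [r] with ω hω t
  show rsc (Real.sqrt lam)⁻¹ lam (W ω) t = _
  rw [rsc_apply, hω]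
  have e : unitInterval.toNNReal (lam * t) = unitInterval.toNNReal lam * unitInterval.toNNReal t := by
    ext
    simp
  rw [e]
  ext j
  fin_cases j
  · simp
    ring
  · simp
    ring

lemma start_repr (h : PBM P B1 B2) (hW : Measurable W) (r : Repr P c B1 B2 W) :
    ∀ᵐ x ∂(P.map W), x 0 = 0 := by
  rw [ae_map_iff hW.aemeasurable]
  · filter_upwards [r, h.b1.eval_zero_ae_eq_zero, h.b2.eval_zero_ae_eq_zero] with ω h1 h2 h3
    rw [h1]
    have e : unitInterval.toNNReal 0 = 0 := by ext; simp
    rw [e, h2, h3]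
    ext j
    fin_cases j <;> simp
  · exact (measurable_eval' 0) (measurableSet_singleton 0)

lemma incr_map (h : PBM P B1 B2) (hW : Measurable W) (r : Repr P c B1 B2 W) :
    HasIndepIncrements (fun t (x : C(unitInterval, EuclideanSpace ℝ (Fin 2))) => x t)
      (P.map W) := by
  have h1 := pbm_incr h r
  intro n t ht
  have h2 := h1 n t ht
  have : IsProbabilityMeasure (P.map W) := Measure.isProbabilityMeasure_map hW.aemeasurable
  rw [iIndepFun_iff_map_fun_eq_pi_map] at h2 ⊢
  · rw [Measure.map_map _ hW]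
    · rw [show ((fun (x : C(unitInterval, EuclideanSpace ℝ (Fin 2))) (i : Fin n) =>
        x (t i.succ) - x (t i.castSucc)) ∘ W) =
        (fun ω (i : Fin n) => W ω (t i.succ) - W ω (t i.castSucc)) from rfl, h2]
      congr 1
      funext i
      exact (Measure.map_map (μ := P) ((measurable_eval' (t i.succ)).sub
        (measurable_eval' (t i.castSucc))) hW).symm
    · exact measurable_pi_lambda _ (fun i => (measurable_eval' _).sub (measurable_eval' _))
  · intro i
    exact ((measurable_eval' _).sub (measurable_eval' _)).aemeasurable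
  · intro i
    exact (((measurable_eval' _).comp hW).sub ((measurable_eval' _).comp hW)).aemeasurable

end

end Pool.Agent.SawLim
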