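import Pool.Agent.SawLim92.Sing

/-!
Time-changed planar Brownian motion is almost surely robustly self-crossing.
-/

set_option autoImplicit false

open MeasureTheory ProbabilityTheory Filter Topology
open scoped NNReal

namespace Pool.Agent.SawLim

theorem isOpen_Crossing : IsOpen Crossing := by
  rw [Metric.isOpen_iff]
  rintro q ⟨η, hη, hq⟩
  refine ⟨η / 2, by positivity, ?_⟩
  intro x hx
  refine ⟨η / 2, by positivity, hq.near ?_⟩
  intro t
  rw [Metric.mem_ball, dist_eq_norm] at hx
  have := (x - q).norm_coe_le_norm t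
  rw [ContinuousMap.sub_apply] at this
  linarith

/-- a time change of a curve that crosses itself early crosses itself -/
lemma cross_clock {x y : C(unitInterval, EuclideanSpace ℝ (Fin 2))} {V : unitInterval → ℝ≥0}
    (hVc : Continuous V) (hVm : Monotone V) (hV0 : V 0 = 0) {T : unitInterval}
    (hT : unitInterval.toNNReal T ≤ V 1) {η : ℝ} (hη : 0 < η) (h : CrossIn 0 T η x)
    (hxy : ∀ (t u : unitInterval), V t = unitInterval.toNNReal u → y t = x u) : Cross η y := by
  obtain ⟨t0, t1, t2, t3, h0, h3, h01, h12, h23, x0, x1, y0, y1, hx, hy, ha, hb, hc, hd, he, hf⟩ := h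
  have surj : ∀ t : unitInterval, t ≤ T → ∃ r : unitInterval, V r = unitInterval.toNNReal t := by
    intro t ht
    have hmem : unitInterval.toNNReal t ∈ Set.Icc (V 0) (V 1) := by
      rw [hV0]
      refine ⟨zero_le, le_trans ?_ hT⟩
      exact ht
    obtain ⟨r, hr⟩ := intermediate_value_univ (0 : unitInterval) 1 hVc hmem
    exact ⟨r, hr⟩
  have inj : ∀ t u : unitInterval, unitInterval.toNNReal t ≤ unitInterval.toNNReal u → t ≤ u :=
    fun t u h => h
  have l01 : t0 < t1 := by
    refine lt_of_le_of_ne h01 ?_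
    intro h
    rw [h] at hb
    linarith
  have l23 : t2 < t3 := by
    refine lt_of_le_of_ne h23 ?_
    intro h
    rw [h] at he
    linarith
  obtain ⟨s0, hs0⟩ := surj t0 (h01.trans (h12.le.trans (h23.trans h3)))
  obtain ⟨s1, hs1⟩ := surj t1 (h12.le.trans (h23.trans h3))
  obtain ⟨s2, hs2⟩ := surj t2 (h23.trans h3)
  obtain ⟨s3, hs3⟩ := surj t3 h3
  have ord : ∀ {a b : unitInterval} {u v : unitInterval}, V a = unitInterval.toNNReal u →
      V b = unitInterval.toNNReal v → u < v → a < b := by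
    intro a b u v hu hv huv
    by_contra hcon
    push Not at hcon
    have := hVm hcon
    rw [hu, hv] at this
    exact absurd (inj _ _ this) (not_le.2 huv)
  -- times between s_i and s_j are mapped to times between t_i and t_j
  have btw : ∀ {a b : unitInterval} {u v : unitInterval}, V a = unitInterval.toNNReal u →
      V b = unitInterval.toNNReal v → ∀ t, a ≤ t → t ≤ b →
      ∃ r : unitInterval, u ≤ r ∧ r ≤ v ∧ V t = unitInterval.toNNReal r := by
    intro a b u v hu hv t h1 h2
    have h1' : unitInterval.toNNReal u ≤ V t := by rw [← hu]; exact hVm h1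
    have h2' : V t ≤ unitInterval.toNNReal v := by rw [← hv]; exact hVm h2
    have h1'' : (u : ℝ) ≤ (V t : ℝ) := h1'
    have h2'' : (V t : ℝ) ≤ (v : ℝ) := h2'
    refine ⟨⟨(V t : ℝ), (V t).2, h2''.trans v.2.2⟩, h1'', h2'', ?_⟩
    ext
    rfl
  refine ⟨s0, s1, s2, s3, (ord hs0 hs1 l01).le, ord hs1 hs2 h12, (ord hs2 hs3 l23).le,
    x0, x1, y0, y1, hx, hy, ?_, ?_, ?_, ?_, ?_, ?_⟩
  · intro t g1 g2
    obtain ⟨r, r1, r2, r3⟩ := btw hs0 hs1 t g1 g2
    rw [hxy t r r3]
    exact ha r r1 r2
  · rw [hxy s0 t0 hs0]; exact hb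
  · rw [hxy s1 t1 hs1]; exact hc
  · intro t g1 g2
    obtain ⟨r, r1, r2, r3⟩ := btw hs2 hs3 t g1 g2
    rw [hxy t r r3]
    exact hd r r1 r2
  · rw [hxy s2 t2 hs2]; exact he
  · rw [hxy s3 t3 hs3]; exact hf

section

variable [MeasurableSpace C(unitInterval, EuclideanSpace ℝ (Fin 2))]
  [BorelSpace C(unitInterval, EuclideanSpace ℝ (Fin 2))]

/-- a curve-valued map with measurable values is measurable -/
lemma measurable_of_evs {Ω : Type*} [MeasurableSpace Ω]
    {W : Ω → C(unitInterval, EuclideanSpace ℝ (Fin 2))} (h : ∀ t, Measurable (fun ω => W ω t)) :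
    Measurable W := by
  intro A hA
  obtain ⟨A', hA', rfl⟩ := borel_evs A hA
  rw [← Set.preimage_comp]
  have : Measurable (evs ∘ W) := measurable_pi_lambda _ h
  exact this hA'

/-- **Time-changed planar Brownian motion is almost surely robustly self-crossing.** -/
theorem clock_crossing {Ω : Type*} [MeasurableSpace Ω] {P : Measure Ω} [IsProbabilityMeasure P]
    {c : ℝ} (hc0 : c ≠ 0) {B1 B2 : ℝ≥0 → Ω → ℝ} (m1 : ∀ t, Measurable (B1 t))
    (m2 : ∀ t, Measurable (B2 t)) (h1 : IsBrownianReal B1 P) (h2 : IsBrownianReal B2 P)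
    (ind : IndepFun (fun ω t => B1 t ω) (fun ω t => B2 t ω) P)
    {V : unitInterval → Ω → ℝ≥0}
    (hV : ∀ᵐ ω ∂P, Continuous (fun t => V t ω) ∧ Monotone (fun t => V t ω) ∧ V 0 ω = 0 ∧
      0 < V 1 ω)
    {Y : Ω → C(unitInterval, EuclideanSpace ℝ (Fin 2))}
    (hY : ∀ᵐ ω ∂P, ∀ t, Y ω t = !₂[c * B1 (V t ω) ω, c * B2 (V t ω) ω]) :
    ∀ᵐ ω ∂P, Y ω ∈ Crossing := by
  classical
  set bad : Set Ω := {ω | ¬ (Continuous (B1 · ω) ∧ Continuous (B2 · ω))} with hbad
  have hbad0 : P bad = 0 := by
    rw [hbad, ← ae_iff]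
    filter_upwards [h1.cont, h2.cont] with ω a b
    exact ⟨a, b⟩
  set N : Set Ω := toMeasurable P bad with hN
  have hNm : MeasurableSet N := measurableSet_toMeasurable P bad
  have hN0 : P N = 0 := by rw [hN, measure_toMeasurable, hbad0]
  have hNb : bad ⊆ N := subset_toMeasurable P bad
  have hgood : ∀ ω, ω ∉ N → Continuous (B1 · ω) ∧ Continuous (B2 · ω) := by
    intro ω hω
    by_contra hcon
    exact hω (hNb hcon)
  let W : Ω → C(unitInterval, EuclideanSpace ℝ (Fin 2)) := fun ω =>
    if hω : ω ∉ N then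
      ⟨fun t => !₂[c * B1 (unitInterval.toNNReal t) ω, c * B2 (unitInterval.toNNReal t) ω], by
        have c1 := (hgood ω hω).1
        have c2 := (hgood ω hω).2
        have c3 : Continuous unitInterval.toNNReal := unitInterval.toNNReal_continuous
        have c1' : Continuous fun t : unitInterval => B1 (unitInterval.toNNReal t) ω := c1.comp c3
        have c2' : Continuous fun t : unitInterval => B2 (unitInterval.toNNReal t) ω := c2.comp c3
        fun_prop⟩
    else 0
  have hWval : ∀ ω, ω ∉ N → ∀ t : unitInterval,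
      W ω t = !₂[c * B1 (unitInterval.toNNReal t) ω, c * B2 (unitInterval.toNNReal t) ω] := by
    intro ω hω t
    simp only [W]
    rw [dif_pos hω]
    rfl
  have hWm : Measurable W := by
    apply measurable_of_evs
    intro t
    have e : (fun ω => W ω t) = Nᶜ.indicator (fun ω =>
        (!₂[c * B1 (unitInterval.toNNReal t) ω, c * B2 (unitInterval.toNNReal t) ω] :
          EuclideanSpace ℝ (Fin 2))) := by
      funext ω
      by_cases hω : ω ∈ N
      · rw [Set.indicator_of_notMem (by simpa using hω)]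
        simp only [W]
        rw [dif_neg (by simpa using hω)]
        rfl
      · rw [Set.indicator_of_mem (by simpa using hω), hWval ω hω]
    rw [e]
    apply Measurable.indicator _ hNm.compl
    have n1 := m1 (unitInterval.toNNReal t)
    have n2 := m2 (unitInterval.toNNReal t)
    fun_prop
  have hNae : ∀ᵐ ω ∂P, ω ∉ N := by
    rw [ae_iff]
    simpa using hN0
  have hrepr : Repr P c B1 B2 W := by
    filter_upwards [hNae] with ω hω t
    rw [hWval ω hω]
  have hpbm : PBM P B1 B2 := ⟨m1, m2, h1.toIsPreBrownianReal, h2.toIsPreBrownianReal, ind⟩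
  have hcross : ∀ᵐ ω ∂P, ∀ k : ℕ, ∃ η : ℝ, 0 < η ∧ CrossIn 0 (lamj k) η (W ω) := by
    rw [ae_all_iff]
    intro k
    have := brown_crossing hc0 hpbm hWm hrepr k
    have h0 := Measure.preimage_null_of_map_null hWm.aemeasurable this
    rw [ae_iff]
    exact h0
  filter_upwards [hcross, hNae, hV, hY] with ω a b hcl d
  obtain ⟨c1, c2, c3, c4⟩ := hcl
  obtain ⟨k, hk⟩ : ∃ k : ℕ, unitInterval.toNNReal (lamj k) ≤ V 1 ω := by
    obtain ⟨k, hk⟩ := exists_pow_lt_of_lt_one (show (0 : ℝ) < V 1 ω by exact_mod_cast c4)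
      (by norm_num : (1 / 2 : ℝ) < 1)
    refine ⟨k, ?_⟩
    show ((1 : ℝ) / 2) ^ k ≤ V 1 ω
    exact hk.le
  obtain ⟨η, hη, hc⟩ := a k
  refine ⟨η, hη, cross_clock c1 c2 c3 hk hη hc ?_⟩
  intro t u htu
  rw [d, hWval ω b, htu]

/-- the law of a curve which is almost surely robustly self-crossing is singular with respect to a
law which does not charge such curves -/
lemma singular_of_crossing {Ω : Type*} [MeasurableSpace Ω] {P : Measure Ω}
    {Y : Ω → C(unitInterval, EuclideanSpace ℝ (Fin 2))} (hYm : Measurable Y)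
    (hY : ∀ᵐ ω ∂P, Y ω ∈ Crossing) {ν : Measure C(unitInterval, EuclideanSpace ℝ (Fin 2))}
    (hν : ν Crossing = 0) : (P.map Y).MutuallySingular ν := by
  refine ⟨Crossingᶜ, isOpen_Crossing.measurableSet.compl, ?_, ?_⟩
  · rw [Measure.map_apply hYm isOpen_Crossing.measurableSet.compl]
    exact ae_iff.1 hY
  · rw [compl_compl]
    exact hν

end

end Pool.Agent.SawLim
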