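import Pool.Agent.Saw39.Planar

/-!
Two vertex-disjoint lattice paths, one crossing a rectangle horizontally and the other one
vertically, do not exist.
-/

set_option autoImplicit false

namespace Pool.Agent.SawLim

open SawNu

/-- the extended horizontal path: up from level `0` to `h 0`, along `h`, and up to level `H` -/
def extPath (h : ℕ → Pt) (n : ℕ) (i : ℕ) : Pt :=
  if (i : ℤ) ≤ (h 0).2 then ((h 0).1, (i : ℤ))
  else if (i : ℤ) ≤ (h 0).2 + n then h (i - ((h 0).2).toNat)
  else ((h n).1, (h n).2 + ((i : ℤ) - (h 0).2 - n))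

/-- vertical path going up crosses a horizontal path: impossible (levels normalised to `0..H`). -/
lemma no_cross_aux (h v : ℕ → Pt) (n m : ℕ) (X0 X1 H : ℤ)
    (hE : ∀ i < n, Esq (h i) (h (i+1))) (vE : ∀ i < m, Esq (v i) (v (i+1)))
    (hy : ∀ i ≤ n, 0 < (h i).2 ∧ (h i).2 < H)
    (h0 : (h 0).1 ≤ X0) (hn : X1 ≤ (h n).1)
    (vx : ∀ k ≤ m, X0 < (v k).1 ∧ (v k).1 < X1)
    (v0 : (v 0).2 ≤ 0) (vm : H ≤ (v m).2)
    (disj : ∀ i ≤ n, ∀ k ≤ m, h i ≠ v k) : False := by
  classical
  have hH : 0 < H := by have := hy 0 (Nat.zero_le _); omega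
  -- the piece of v between level 0 and level H
  obtain ⟨k1, hk1, hk1', hk1m⟩ : ∃ k1, k1 ≤ m ∧ H ≤ (v k1).2 ∧ ∀ k < k1, (v k).2 < H := by
    have hex : ∃ k, k ≤ m ∧ H ≤ (v k).2 := ⟨m, le_rfl, vm⟩
    refine ⟨Nat.find hex, (Nat.find_spec hex).1, (Nat.find_spec hex).2, ?_⟩
    intro k hk
    have := Nat.find_min hex hk
    have h1 := (Nat.find_spec hex).1
    by_contra hc
    exact this ⟨by omega, by omega⟩
  obtain ⟨k0, hk0, hk0', hk0m⟩ : ∃ k0, k0 < k1 ∧ (v k0).2 ≤ 0 ∧ ∀ k, k0 < k → k ≤ k1 → 0 < (v k).2 := by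
    have hk1pos : 0 < k1 := by
      rcases Nat.eq_zero_or_pos k1 with h | h
      · subst h; omega
      · exact h
    let S := (Finset.range k1).filter (fun k => (v k).2 ≤ 0)
    have hS : S.Nonempty := ⟨0, by simp [S, hk1pos, v0]⟩
    refine ⟨S.max' hS, ?_, ?_, ?_⟩
    · have := S.max'_mem hS
      simp only [S, Finset.mem_filter, Finset.mem_range] at this
      exact this.1
    · have := S.max'_mem hS
      simp only [S, Finset.mem_filter, Finset.mem_range] at this
      exact this.2
    · intro k hk hk2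
      by_contra hc
      rcases lt_or_eq_of_le hk2 with h3 | h3
      · have : k ∈ S := by simp only [S, Finset.mem_filter, Finset.mem_range]; omega
        have := S.le_max' k this
        omega
      · subst h3; omega
  have lev1 : (v k1).2 = H := by
    have hlt := hk1m (k1 - 1) (by omega)
    have hEd := vE (k1 - 1) (by omega)
    rw [show k1 - 1 + 1 = k1 by omega] at hEd
    simp only [Esq] at hEd
    omega
  have lev0 : (v k0).2 = 0 := by
    have hlt := hk0m (k0 + 1) (by omega) (by omega)
    have hEd := vE k0 (by omega)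
    simp only [Esq] at hEd
    omega
  have hpos0 := hy 0 (Nat.zero_le _)
  have hposn := hy n le_rfl
  obtain ⟨u1, hu1⟩ : ∃ u1 : ℕ, (u1 : ℤ) = (h 0).2 := ⟨((h 0).2).toNat, by omega⟩
  obtain ⟨u2, hu2⟩ : ∃ u2 : ℕ, (u2 : ℤ) = H - (h n).2 := ⟨(H - (h n).2).toNat, by omega⟩
  have htn : ((h 0).2).toNat = u1 := by omega
  set A := extPath h n with hA
  have A1 : ∀ i ≤ u1, A i = ((h 0).1, (i : ℤ)) := by
    intro i hi
    simp only [hA, extPath]
    rw [if_pos (by omega)]
  have A2 : ∀ i, i ≤ n → A (u1 + i) = h i := by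
    intro i hi
    simp only [hA, extPath]
    by_cases c : i = 0
    · subst c
      rw [if_pos (by push_cast; omega)]
      exact Prod.ext rfl (by show ((u1 + 0 : ℕ) : ℤ) = (h 0).2; omega)
    · rw [if_neg (by push_cast; omega), if_pos (by push_cast; omega)]
      congr 1
      omega
  have A3 : ∀ i, A (u1 + n + i) = ((h n).1, (h n).2 + (i : ℤ)) := by
    intro i
    by_cases c : i = 0
    · subst c
      rw [Nat.add_zero, A2 n le_rfl]
      exact Prod.ext rfl (by simp)
    · simp only [hA, extPath]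
      rw [if_neg (by push_cast; omega), if_neg (by push_cast; omega)]
      refine Prod.ext rfl ?_
      simp only
      push_cast
      omega
  have key := planar Esq_NC A (fun k => v (k0 + k)) (u1 + n + u2) (k1 - k0) H hH
    (by
      intro i hi
      rcases lt_or_ge i u1 with c | c
      · rw [A1 i (by omega), A1 (i+1) (by omega)]
        simp [Esq]
      · rcases lt_or_ge i (u1 + n) with c2 | c2
        · obtain ⟨j, rfl⟩ := Nat.exists_eq_add_of_le c
          rw [A2 j (by omega), show u1 + j + 1 = u1 + (j + 1) by ring, A2 (j+1) (by omega)]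
          exact hE j (by omega)
        · obtain ⟨j, rfl⟩ := Nat.exists_eq_add_of_le c2
          rw [A3 j, show u1 + n + j + 1 = u1 + n + (j + 1) by ring, A3 (j+1)]
          refine Or.inr ⟨rfl, Or.inl ?_⟩
          show (h n).2 + ((j + 1 : ℕ) : ℤ) = (h n).2 + (j : ℤ) + 1
          push_cast
          ring)
    (by
      intro i hi
      exact vE (k0 + i) (by omega))
    (by rw [A1 0 (by omega)]; rfl)
    (by rw [A3 u2]; simp only; omega)
    (by simpa using lev0)
    (by
      show (v (k0 + (k1 - k0))).2 = H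
      rw [show k0 + (k1 - k0) = k1 by omega]; exact lev1)
    (by
      intro i hi0 hi
      rcases lt_or_ge i u1 with c | c
      · rw [A1 i (by omega)]
        simp only
        omega
      · rcases lt_or_ge i (u1 + n) with c2 | c2
        · obtain ⟨j, rfl⟩ := Nat.exists_eq_add_of_le c
          rw [A2 j (by omega)]
          exact hy j (by omega)
        · obtain ⟨j, rfl⟩ := Nat.exists_eq_add_of_le c2
          rw [A3 j]
          simp only
          omega)
    (by
      intro i hi0 hi
      exact ⟨hk0m _ (by omega) (by omega), hk1m _ (by omega)⟩)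
    (by
      intro i hi k hk
      have hvx := vx (k0 + k) (by omega)
      rcases lt_or_ge i u1 with c | c
      · rw [A1 i (by omega)]
        intro he
        have := congrArg Prod.fst he
        simp only at this
        omega
      · rcases le_or_gt i (u1 + n) with c2 | c2
        · obtain ⟨j, rfl⟩ := Nat.exists_eq_add_of_le c
          rw [A2 j (by omega)]
          exact disj j (by omega) _ (by omega)
        · obtain ⟨j, rfl⟩ := Nat.exists_eq_add_of_le c2.le
          rw [A3 j]
          intro he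
          have := congrArg Prod.fst he
          simp only at this
          omega)
  have e1 : (A 0).1 < (v (k0 + 0)).1 := by
    rw [A1 0 (by omega)]
    have := vx (k0 + 0) (by omega)
    simp only
    omega
  have e2 := key.mp e1
  rw [A3 u2] at e2
  have := vx (k0 + (k1 - k0)) (by omega)
  simp only at e2
  omega

/-- A horizontal and a vertical crossing of the same rectangle by vertex-disjoint lattice paths do
not exist (vertical path going upwards). -/
theorem no_cross_up (h v : ℕ → Pt) (n m : ℕ) (X0 X1 Y0 Y1 : ℤ)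
    (hE : ∀ i < n, Esq (h i) (h (i+1))) (vE : ∀ i < m, Esq (v i) (v (i+1)))
    (hy : ∀ i ≤ n, Y0 < (h i).2 ∧ (h i).2 < Y1)
    (h0 : (h 0).1 ≤ X0) (hn : X1 ≤ (h n).1)
    (vx : ∀ k ≤ m, X0 < (v k).1 ∧ (v k).1 < X1)
    (v0 : (v 0).2 ≤ Y0) (vm : Y1 ≤ (v m).2)
    (disj : ∀ i ≤ n, ∀ k ≤ m, h i ≠ v k) : False := by
  refine no_cross_aux (fun i => ((h i).1, (h i).2 - Y0)) (fun i => ((v i).1, (v i).2 - Y0)) n m
    X0 X1 (Y1 - Y0) ?_ ?_ ?_ h0 hn vx ?_ ?_ ?_
  · intro i hi
    have := hE i hi
    simp only [Esq] at this ⊢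
    omega
  · intro i hi
    have := vE i hi
    simp only [Esq] at this ⊢
    omega
  · intro i hi
    have := hy i hi
    simp only
    omega
  · simp only; omega
  · simp only; omega
  · intro i hi k hk he
    apply disj i hi k hk
    have h1 := congrArg Prod.fst he
    have h2 := congrArg Prod.snd he
    simp only at h1 h2
    exact Prod.ext h1 (by omega)

/-- the same with the vertical path going downwards -/
theorem no_cross_down (h v : ℕ → Pt) (n m : ℕ) (X0 X1 Y0 Y1 : ℤ)
    (hE : ∀ i < n, Esq (h i) (h (i+1))) (vE : ∀ i < m, Esq (v i) (v (i+1)))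
    (hy : ∀ i ≤ n, Y0 < (h i).2 ∧ (h i).2 < Y1)
    (h0 : (h 0).1 ≤ X0) (hn : X1 ≤ (h n).1)
    (vx : ∀ k ≤ m, X0 < (v k).1 ∧ (v k).1 < X1)
    (v0 : Y1 ≤ (v 0).2) (vm : (v m).2 ≤ Y0)
    (disj : ∀ i ≤ n, ∀ k ≤ m, h i ≠ v k) : False := by
  refine no_cross_up h (fun k => v (m - k)) n m X0 X1 Y0 Y1 hE ?_ hy h0 hn ?_ ?_ ?_ ?_
  · intro i hi
    have := vE (m - i - 1) (by omega)
    rw [show m - i - 1 + 1 = m - i by omega] at this
    show Esq (v (m - i)) (v (m - (i + 1)))
    rw [show m - (i + 1) = m - i - 1 by omega]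
    simp only [Esq] at this ⊢
    omega
  · intro k hk
    exact vx _ (by omega)
  · simpa using vm
  · simpa using v0
  · intro i hi k hk
    exact disj i hi _ (by omega)

end Pool.Agent.SawLim
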