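import Pool.Agent.SawLim92.CrossLat
import Pool.Agent.SawLim.SupX

/-!
Robustly self-crossing curves; rescaled self-avoiding walks are not of this type.
-/

set_option autoImplicit false

namespace Pool.Agent.SawLim

open SawNu

/-- The plane curve `p` crosses itself robustly, with margin `η`: during `[t0,t1]` it crosses the
rectangle `[x0,x1] × [y0,y1]` from left to right, and during the later time interval `[t2,t3]` from
top to bottom. -/
def Cross (η : ℝ) (p : C(unitInterval, EuclideanSpace ℝ (Fin 2))) : Prop :=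
  ∃ t0 t1 t2 t3 : unitInterval, t0 ≤ t1 ∧ t1 < t2 ∧ t2 ≤ t3 ∧
  ∃ x0 x1 y0 y1 : ℝ, x0 < x1 ∧ y0 < y1 ∧
    (∀ t, t0 ≤ t → t ≤ t1 → y0 + η < p t 1 ∧ p t 1 < y1 - η) ∧
    p t0 0 < x0 - η ∧ x1 + η < p t1 0 ∧
    (∀ t, t2 ≤ t → t ≤ t3 → x0 + η < p t 0 ∧ p t 0 < x1 - η) ∧
    y1 + η < p t2 1 ∧ p t3 1 < y0 - η

/-- The set of robustly self-crossing plane curves. -/
def Crossing : Set C(unitInterval, EuclideanSpace ℝ (Fin 2)) := {p | ∃ η : ℝ, 0 < η ∧ Cross η p}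

lemma abs_coord_le (x : EuclideanSpace ℝ (Fin 2)) (j : Fin 2) : |x j| ≤ ‖x‖ := by
  have := EuclideanSpace.norm_eq x
  rw [this]
  apply Real.abs_le_sqrt
  have h : ‖x j‖ ^ 2 ≤ ∑ i, ‖x i‖ ^ 2 :=
    Finset.single_le_sum (f := fun i => ‖x i‖ ^ 2) (fun i _ => sq_nonneg _) (Finset.mem_univ j)
  simpa using h

lemma Cross.near {η : ℝ} {p q : C(unitInterval, EuclideanSpace ℝ (Fin 2))} (h : Cross η p)
    (hq : ∀ t, ‖q t - p t‖ ≤ η / 2) : Cross (η / 2) q := by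
  obtain ⟨t0, t1, t2, t3, h01, h12, h23, x0, x1, y0, y1, hx, hy, ha, hb, hc, hd, he, hf⟩ := h
  have key : ∀ t (j : Fin 2), |q t j - p t j| ≤ η / 2 := by
    intro t j
    have := abs_coord_le (q t - p t) j
    exact le_trans (by simpa using this) (hq t)
  refine ⟨t0, t1, t2, t3, h01, h12, h23, x0, x1, y0, y1, hx, hy, ?_, ?_, ?_, ?_, ?_, ?_⟩
  · intro t h1 h2
    have a := abs_le.1 (key t 1)
    have b := ha t h1 h2
    constructor <;> linarith
  · have a := abs_le.1 (key t0 0); linarith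
  · have a := abs_le.1 (key t1 0); linarith
  · intro t h1 h2
    have a := abs_le.1 (key t 0)
    have b := hd t h1 h2
    constructor <;> linarith
  · have a := abs_le.1 (key t2 1); linarith
  · have a := abs_le.1 (key t3 1); linarith

lemma Cross.mono {η η' : ℝ} {p : C(unitInterval, EuclideanSpace ℝ (Fin 2))} (h : Cross η p)
    (hη : η' ≤ η) : Cross η' p := by
  obtain ⟨t0, t1, t2, t3, h01, h12, h23, x0, x1, y0, y1, hx, hy, ha, hb, hc, hd, he, hf⟩ := h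
  refine ⟨t0, t1, t2, t3, h01, h12, h23, x0, x1, y0, y1, hx, hy, ?_, by linarith, by linarith, ?_,
    by linarith, by linarith⟩
  · intro t h1 h2
    have b := ha t h1 h2
    constructor <;> linarith
  · intro t h1 h2
    have b := hd t h1 h2
    constructor <;> linarith

lemma norm_pt_sub_of_adj {p q : ℤ × ℤ} (h : |q.1 - p.1| + |q.2 - p.2| = 1) :
    ‖pt q - pt p‖ = 1 := by
  have e : pt q - pt p = pt (q - p) := by
    ext j
    fin_cases j <;> simp [pt]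
  rw [e]
  have h2 : ‖pt (q - p)‖ ^ 2 = 1 := by
    rw [norm_pt_sq]
    have : (q - p).1 ^ 2 + (q - p).2 ^ 2 = 1 := by
      simp only [Prod.fst_sub, Prod.snd_sub]
      rcases abs_cases (q.1 - p.1) with ⟨h1, h1'⟩ | ⟨h1, h1'⟩ <;>
      rcases abs_cases (q.2 - p.2) with ⟨h2, h2'⟩ | ⟨h2, h2'⟩
      all_goals
        have : (q.1 - p.1 = 0 ∧ (q.2 - p.2 = 1 ∨ q.2 - p.2 = -1)) ∨
          (q.2 - p.2 = 0 ∧ (q.1 - p.1 = 1 ∨ q.1 - p.1 = -1)) := by omega
        rcases this with ⟨a, b | b⟩ | ⟨a, b | b⟩ <;> simp [a, b]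
    exact_mod_cast this
  have h3 := norm_nonneg (pt (q - p))
  nlinarith

lemma adj_wN {n : ℕ} {w : Fin (n + 1) → ℤ × ℤ} (h : IsSAW n w) {j : ℕ} (hj : j < n) :
    |(wN n w (j + 1)).1 - (wN n w j).1| + |(wN n w (j + 1)).2 - (wN n w j).2| = 1 := by
  have := h.2.1 ⟨j, hj⟩
  rw [wN_succ w, wN_castSucc w] at this
  exact this

lemma near_floor {n : ℕ} (hn : 0 < n) {w : Fin (n + 1) → ℤ × ℤ} (h : IsSAW n w)
    (t : unitInterval) (i : ℕ) (h1 : (i : ℝ) ≤ n * (t : ℝ)) (h2 : (n : ℝ) * (t : ℝ) ≤ i + 1)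
    (hi : i ≤ n) :
    ‖X n w t - (s n)⁻¹ • pt (wN n w i)‖ ≤ (s n)⁻¹ := by
  have hs : 0 ≤ (s n)⁻¹ := inv_nonneg.2 (s_nonneg n)
  rcases lt_or_eq_of_le hi with hlt | heq
  · rw [X_apply w t i hlt h1 h2, ← smul_sub, norm_smul, Real.norm_of_nonneg hs]
    have : ‖pt (wN n w i) + ((n : ℝ) * (t : ℝ) - i) • (pt (wN n w (i + 1)) - pt (wN n w i)) -
        pt (wN n w i)‖ ≤ 1 := by
      rw [add_sub_cancel_left, norm_smul, norm_pt_sub_of_adj (adj_wN h hlt), mul_one,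
        Real.norm_of_nonneg (by linarith)]
      linarith
    calc (s n)⁻¹ * _ ≤ (s n)⁻¹ * 1 := mul_le_mul_of_nonneg_left this hs
      _ = _ := mul_one _
  · subst heq
    have ht : (t : ℝ) = 1 := by
      have h3 := t.2.2
      have hi' : (0 : ℝ) < i := by exact_mod_cast hn
      have : (i : ℝ) * 1 ≤ i * (t : ℝ) := by linarith
      exact le_antisymm h3 (le_of_mul_le_mul_left this hi')
    have e : t = 1 := Subtype.ext ht
    rw [e, X_one hn, wN_of_le w le_rfl]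
    simp only [Fin.last]
    rw [sub_self, norm_zero]
    exact hs

lemma near_ceil {n : ℕ} (hn : 0 < n) {w : Fin (n + 1) → ℤ × ℤ} (h : IsSAW n w)
    (t : unitInterval) (i : ℕ) (h1 : (n : ℝ) * (t : ℝ) ≤ i) (h2 : (i : ℝ) ≤ (n : ℝ) * (t : ℝ) + 1)
    (hi : i ≤ n) :
    ‖X n w t - (s n)⁻¹ • pt (wN n w i)‖ ≤ (s n)⁻¹ := by
  have hs : 0 ≤ (s n)⁻¹ := inv_nonneg.2 (s_nonneg n)
  rcases Nat.eq_zero_or_pos i with h0 | h0
  · subst h0
    have ht0 := t.2.1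
    have hn' : (0 : ℝ) < n := by exact_mod_cast hn
    have : (n : ℝ) * (t : ℝ) ≤ 0 := by simpa using h1
    exact near_floor hn h t 0 (by simp; positivity) (by simp; linarith) hi
  · obtain ⟨j, rfl⟩ := Nat.exists_eq_succ_of_ne_zero h0.ne'
    have hj : j < n := by omega
    push_cast at h1 h2
    rw [X_apply w t j hj (by linarith) (by linarith), ← smul_sub, norm_smul,
      Real.norm_of_nonneg hs]
    have e : pt (wN n w j) + ((n : ℝ) * (t : ℝ) - j) • (pt (wN n w (j + 1)) - pt (wN n w j)) -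
        pt (wN n w (j + 1)) =
        (-(1 - ((n : ℝ) * (t : ℝ) - j))) • (pt (wN n w (j + 1)) - pt (wN n w j)) := by
      generalize (n : ℝ) * (t : ℝ) - j = θ
      rw [neg_smul, sub_smul, one_smul]
      abel
    have : ‖pt (wN n w j) + ((n : ℝ) * (t : ℝ) - j) • (pt (wN n w (j + 1)) - pt (wN n w j)) -
        pt (wN n w (j + 1))‖ ≤ 1 := by
      rw [e, norm_smul, norm_pt_sub_of_adj (adj_wN h hj), mul_one, norm_neg,
        Real.norm_of_nonneg (by linarith)]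
      linarith
    calc (s n)⁻¹ * _ ≤ (s n)⁻¹ * 1 := mul_le_mul_of_nonneg_left this hs
      _ = _ := mul_one _

/-- A rescaled self-avoiding walk with mesh `b / s_n ≤ η/2` is not robustly self-crossing. -/
theorem not_cross_X {n : ℕ} (hn : 1 ≤ n) {w : Fin (n + 1) → ℤ × ℤ} (h : IsSAW n w) {b η : ℝ}
    (hb : 0 < b) (hη : b * (s n)⁻¹ ≤ η / 2) : ¬ Cross η (b • X n w) := by
  rintro ⟨t0, t1, t2, t3, h01, h12, h23, x0, x1, y0, y1, hx, hy, ha, hbx, hc, hd, he, hf⟩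
  set c : ℝ := b * (s n)⁻¹ with hcdef
  have hsn : 0 < s n := s_pos hn
  have hc0 : 0 < c := by positivity
  have hn' : (0 : ℝ) < n := by exact_mod_cast hn
  -- coordinates
  have p0 : ∀ q : ℤ × ℤ, (pt q) 0 = (q.1 : ℝ) := by intro q; simp [pt]
  have p1 : ∀ q : ℤ × ℤ, (pt q) 1 = (q.2 : ℝ) := by intro q; simp [pt]
  have scale : ∀ (t : unitInterval) (i : ℕ), ‖X n w t - (s n)⁻¹ • pt (wN n w i)‖ ≤ (s n)⁻¹ →
      |(b • X n w) t 0 - c * (wN n w i).1| ≤ c ∧ |(b • X n w) t 1 - c * (wN n w i).2| ≤ c := by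
    intro t i hti
    have e : ‖b • (X n w t - (s n)⁻¹ • pt (wN n w i))‖ ≤ c := by
      rw [norm_smul, Real.norm_of_nonneg hb.le]
      exact mul_le_mul_of_nonneg_left hti hb.le
    constructor
    · refine le_trans (le_of_eq ?_) ((abs_coord_le _ 0).trans e)
      simp only [ContinuousMap.smul_apply, PiLp.smul_apply, PiLp.sub_apply, smul_eq_mul, p0]
      congr 1
      rw [hcdef]; ring
    · refine le_trans (le_of_eq ?_) ((abs_coord_le _ 1).trans e)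
      simp only [ContinuousMap.smul_apply, PiLp.smul_apply, PiLp.sub_apply, smul_eq_mul, p1]
      congr 1
      rw [hcdef]; ring
  have exact_at : ∀ (i : ℕ) (hi : i ≤ n) (t : unitInterval), (n : ℝ) * (t : ℝ) = i →
      (b • X n w) t 0 = c * (wN n w i).1 ∧ (b • X n w) t 1 = c * (wN n w i).2 := by
    intro i hi t ht
    have := X_div w i hi t ht (by omega)
    rw [← wN_of_le w hi] at this
    simp only [ContinuousMap.smul_apply, PiLp.smul_apply, smul_eq_mul]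
    rw [this]
    simp only [PiLp.smul_apply, smul_eq_mul, p0, p1]
    constructor <;> (rw [hcdef]; ring)
  have bnd : ∀ t : unitInterval, (0 : ℝ) ≤ n * (t : ℝ) ∧ (n : ℝ) * (t : ℝ) ≤ n := by
    intro t
    have h1 := t.2.1
    have h2 := t.2.2
    constructor
    · positivity
    · nlinarith
  obtain ⟨i0, hi0⟩ : ∃ i0 : ℕ, i0 = ⌈(n : ℝ) * (t0 : ℝ)⌉₊ := ⟨_, rfl⟩
  obtain ⟨i1, hi1⟩ : ∃ i1 : ℕ, i1 = ⌊(n : ℝ) * (t1 : ℝ)⌋₊ := ⟨_, rfl⟩
  obtain ⟨i2, hi2⟩ : ∃ i2 : ℕ, i2 = ⌈(n : ℝ) * (t2 : ℝ)⌉₊ := ⟨_, rfl⟩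
  obtain ⟨i3, hi3⟩ : ∃ i3 : ℕ, i3 = ⌊(n : ℝ) * (t3 : ℝ)⌋₊ := ⟨_, rfl⟩
  have a0 : (n : ℝ) * (t0 : ℝ) ≤ i0 ∧ (i0 : ℝ) ≤ (n : ℝ) * (t0 : ℝ) + 1 ∧ i0 ≤ n := by
    rw [hi0]
    exact ⟨Nat.le_ceil _, (Nat.ceil_lt_add_one (bnd t0).1).le, Nat.ceil_le.2 (bnd t0).2⟩
  have a2 : (n : ℝ) * (t2 : ℝ) ≤ i2 ∧ (i2 : ℝ) ≤ (n : ℝ) * (t2 : ℝ) + 1 ∧ i2 ≤ n := by
    rw [hi2]
    exact ⟨Nat.le_ceil _, (Nat.ceil_lt_add_one (bnd t2).1).le, Nat.ceil_le.2 (bnd t2).2⟩
  have a1 : (i1 : ℝ) ≤ n * (t1 : ℝ) ∧ (n : ℝ) * (t1 : ℝ) ≤ i1 + 1 ∧ i1 ≤ n := by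
    rw [hi1]
    refine ⟨Nat.floor_le (bnd t1).1, (Nat.lt_floor_add_one _).le, ?_⟩
    exact_mod_cast (Nat.floor_le (bnd t1).1).trans (bnd t1).2
  have a3 : (i3 : ℝ) ≤ n * (t3 : ℝ) ∧ (n : ℝ) * (t3 : ℝ) ≤ i3 + 1 ∧ i3 ≤ n := by
    rw [hi3]
    refine ⟨Nat.floor_le (bnd t3).1, (Nat.lt_floor_add_one _).le, ?_⟩
    exact_mod_cast (Nat.floor_le (bnd t3).1).trans (bnd t3).2
  have ht01 : (n : ℝ) * (t0 : ℝ) ≤ n * (t1 : ℝ) :=
    mul_le_mul_of_nonneg_left (by exact_mod_cast h01) hn'.le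
  have ht12 : (n : ℝ) * (t1 : ℝ) < n * (t2 : ℝ) :=
    mul_lt_mul_of_pos_left (by exact_mod_cast h12) hn'
  have ht23 : (n : ℝ) * (t2 : ℝ) ≤ n * (t3 : ℝ) :=
    mul_le_mul_of_nonneg_left (by exact_mod_cast h23) hn'.le
  have n0 := scale t0 i0 (near_ceil (by omega) h t0 i0 a0.1 a0.2.1 a0.2.2)
  have n1 := scale t1 i1 (near_floor (by omega) h t1 i1 a1.1 a1.2.1 a1.2.2)
  have n2 := scale t2 i2 (near_ceil (by omega) h t2 i2 a2.1 a2.2.1 a2.2.2)
  have n3 := scale t3 i3 (near_floor (by omega) h t3 i3 a3.1 a3.2.1 a3.2.2)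
  have le01 : i0 ≤ i1 := by
    by_contra hcon
    push Not at hcon
    have hf0 : (i1 : ℝ) ≤ n * (t0 : ℝ) := by
      by_contra hc2
      push Not at hc2
      have : i0 ≤ i1 := by rw [hi0]; exact Nat.ceil_le.2 hc2.le
      omega
    have m0 := scale t0 i1 (near_floor (by omega) h t0 i1 hf0 (ht01.trans a1.2.1) a1.2.2)
    have b1 := abs_le.1 m0.1
    have b2 := abs_le.1 n1.1
    linarith
  have le23 : i2 ≤ i3 := by
    by_contra hcon
    push Not at hcon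
    have hf0 : (i3 : ℝ) ≤ n * (t2 : ℝ) := by
      by_contra hc2
      push Not at hc2
      have : i2 ≤ i3 := by rw [hi2]; exact Nat.ceil_le.2 hc2.le
      omega
    have m0 := scale t2 i3 (near_floor (by omega) h t2 i3 hf0 (ht23.trans a3.2.1) a3.2.2)
    have b1 := abs_le.1 m0.2
    have b2 := abs_le.1 n3.2
    linarith
  have lt12 : i1 < i2 := by
    have : (i1 : ℝ) < i2 := lt_of_le_of_lt a1.1 (lt_of_lt_of_le ht12 a2.1)
    exact_mod_cast this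
  -- the time i/n
  have tm : ∀ i : ℕ, i ≤ n → ∃ t : unitInterval, (n : ℝ) * (t : ℝ) = i := by
    intro i hi
    have hi' : (i : ℝ) ≤ n := by exact_mod_cast hi
    refine ⟨⟨(i : ℝ) / n, by positivity, by rw [div_le_one hn']; exact hi'⟩, ?_⟩
    show (n : ℝ) * ((i : ℝ) / n) = i
    field_simp
  have cmp : ∀ (t t' : unitInterval), (n : ℝ) * (t : ℝ) ≤ n * (t' : ℝ) → t ≤ t' := by
    intro t t' htt
    have := le_of_mul_le_mul_left htt hn'
    exact_mod_cast this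
  have hyy : ∀ i, i0 ≤ i → i ≤ i1 → y0 < c * (wN n w i).2 ∧ c * (wN n w i).2 < y1 := by
    intro i hA hB
    obtain ⟨t, ht⟩ := tm i (by omega)
    have e := exact_at i (by omega) t ht
    have hA' : (i0 : ℝ) ≤ i := by exact_mod_cast hA
    have hB' : (i : ℝ) ≤ i1 := by exact_mod_cast hB
    have g := ha t (cmp _ _ (by linarith [a0.1])) (cmp _ _ (by linarith [a1.1]))
    rw [e.2] at g
    constructor <;> linarith
  have hxx : ∀ i, i2 ≤ i → i ≤ i3 → x0 < c * (wN n w i).1 ∧ c * (wN n w i).1 < x1 := by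
    intro i hA hB
    obtain ⟨t, ht⟩ := tm i (by omega)
    have e := exact_at i (by omega) t ht
    have hA' : (i2 : ℝ) ≤ i := by exact_mod_cast hA
    have hB' : (i : ℝ) ≤ i3 := by exact_mod_cast hB
    have g := hd t (cmp _ _ (by linarith [a2.1])) (cmp _ _ (by linarith [a3.1]))
    rw [e.1] at g
    constructor <;> linarith
  have fl : ∀ (y : ℝ) (z : ℤ), y < c * z → ⌊y / c⌋ < z := by
    intro y z hz
    rw [Int.floor_lt, div_lt_iff₀ hc0]
    linarith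
  have fl' : ∀ (y : ℝ) (z : ℤ), c * z ≤ y → z ≤ ⌊y / c⌋ := by
    intro y z hz
    rw [Int.le_floor, le_div_iff₀ hc0]
    linarith
  have ce : ∀ (y : ℝ) (z : ℤ), c * z < y → z < ⌈y / c⌉ := by
    intro y z hz
    rw [Int.lt_ceil, lt_div_iff₀ hc0]
    linarith
  have ce' : ∀ (y : ℝ) (z : ℤ), y ≤ c * z → ⌈y / c⌉ ≤ z := by
    intro y z hz
    rw [Int.ceil_le, div_le_iff₀ hc0]
    linarith
  refine no_cross_down (fun i => wN n w (i0 + i)) (fun k => wN n w (i2 + k)) (i1 - i0) (i3 - i2)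
    ⌊x0 / c⌋ ⌈x1 / c⌉ ⌊y0 / c⌋ ⌈y1 / c⌉ ?_ ?_ ?_ ?_ ?_ ?_ ?_ ?_ ?_
  · intro i hi
    have := adj_wN h (j := i0 + i) (by omega)
    show Esq (wN n w (i0 + i)) (wN n w (i0 + i + 1))
    simp only [Esq]
    rcases abs_cases ((wN n w (i0 + i + 1)).1 - (wN n w (i0 + i)).1) with ⟨u1, u1'⟩ | ⟨u1, u1'⟩ <;>
    rcases abs_cases ((wN n w (i0 + i + 1)).2 - (wN n w (i0 + i)).2) with ⟨u2, u2'⟩ | ⟨u2, u2'⟩ <;>
    omega
  · intro i hi
    have := adj_wN h (j := i2 + i) (by omega)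
    show Esq (wN n w (i2 + i)) (wN n w (i2 + i + 1))
    simp only [Esq]
    rcases abs_cases ((wN n w (i2 + i + 1)).1 - (wN n w (i2 + i)).1) with ⟨u1, u1'⟩ | ⟨u1, u1'⟩ <;>
    rcases abs_cases ((wN n w (i2 + i + 1)).2 - (wN n w (i2 + i)).2) with ⟨u2, u2'⟩ | ⟨u2, u2'⟩ <;>
    omega
  · intro i hi
    have g := hyy (i0 + i) (by omega) (by omega)
    exact ⟨fl _ _ g.1, ce _ _ g.2⟩
  · simp only [Nat.add_zero]
    apply fl'
    have g := abs_le.1 n0.1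
    linarith
  · show _ ≤ (wN n w (i0 + (i1 - i0))).1
    rw [show i0 + (i1 - i0) = i1 by omega]
    apply ce'
    have g := abs_le.1 n1.1
    linarith
  · intro k hk
    have g := hxx (i2 + k) (by omega) (by omega)
    exact ⟨fl _ _ g.1, ce _ _ g.2⟩
  · simp only [Nat.add_zero]
    apply ce'
    have g := abs_le.1 n2.2
    linarith
  · show (wN n w (i2 + (i3 - i2))).2 ≤ _
    rw [show i2 + (i3 - i2) = i3 by omega]
    apply fl'
    have g := abs_le.1 n3.2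
    linarith
  · intro i hi k hk heq
    rw [wN_of_le w (by omega), wN_of_le w (by omega)] at heq
    have := congrArg Fin.val (h.2.2 heq)
    simp only at this
    omega

end Pool.Agent.SawLim
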