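import Mathlib

/-!
Past and future of a process with independent increments are independent.
-/

set_option autoImplicit false

open MeasureTheory ProbabilityTheory

namespace Pool.Agent.SawLim

theorem past_future {T Ω : Type*} [LinearOrder T] [MeasurableSpace Ω] {P : Measure Ω}
    [IsProbabilityMeasure P] {E : Type*} [AddCommGroup E] [MeasurableSpace E] [MeasurableAdd₂ E]
    [MeasurableSub₂ E] {X : T → Ω → E} (hX : HasIndepIncrements X P) (hm : ∀ t, Measurable (X t))
    (o t : T) (ho : ∀ s, o ≤ s) :
    IndepFun (fun ω (s : Set.Iic t) => X s ω - X o ω) (fun ω (s : Set.Ici t) => X s ω - X t ω)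
      P := by
  classical
  refine IndepFun.process_indepFun_process (X := fun (s : Set.Iic t) ω => X s ω - X o ω)
    (Y := fun (s : Set.Ici t) ω => X s ω - X t ω) (fun s => (hm _).sub (hm _))
    (fun s => (hm _).sub (hm _)) ?_
  intro I J
  let F : Finset T := insert o (insert t (I.image Subtype.val ∪ J.image Subtype.val))
  have hFpos : 0 < F.card := Finset.card_pos.2 ⟨o, by simp [F]⟩
  let e : Fin F.card ↪o T := F.orderEmbOfFin rfl
  let τ : ℕ → T := fun i => e ⟨min i (F.card - 1), by omega⟩
  have hτ : Monotone τ := by
    intro i j hij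
    apply e.monotone
    rw [Fin.le_def]
    simp only
    omega
  have hidx : ∀ s ∈ F, ∃ i, i < F.card ∧ τ i = s := by
    intro s hs
    have : s ∈ Set.range e := by
      rw [Finset.range_orderEmbOfFin]
      exact hs
    obtain ⟨i, hi⟩ := this
    refine ⟨i, i.2, ?_⟩
    rw [← hi]
    simp only [τ]
    congr 1
    ext
    simp only
    have := i.2
    omega
  have hidx' : ∀ s, ∃ i, s ∈ F → (i < F.card ∧ τ i = s) := by
    intro s
    by_cases hs : s ∈ F
    · obtain ⟨i, hi⟩ := hidx s hs
      exact ⟨i, fun _ => hi⟩
    · exact ⟨0, fun h => absurd h hs⟩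
  choose idx hidx using hidx'
  have hτinj : ∀ i j, i < F.card → j < F.card → τ i ≤ τ j → i ≤ j := by
    intro i j hi hj hle
    have := (e.le_iff_le).1 hle
    rw [Fin.le_def] at this
    simp only at this
    omega
  have hoF : o ∈ F := by simp [F]
  have htF : t ∈ F := by simp [F]
  have hIF : ∀ s ∈ I, (s : T) ∈ F := by
    intro s hs
    simp only [F, Finset.mem_insert, Finset.mem_union, Finset.mem_image]
    exact Or.inr (Or.inr (Or.inl ⟨s, hs, rfl⟩))
  have hJF : ∀ s ∈ J, (s : T) ∈ F := by
    intro s hs
    simp only [F, Finset.mem_insert, Finset.mem_union, Finset.mem_image]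
    exact Or.inr (Or.inr (Or.inr ⟨s, hs, rfl⟩))
  have hτ0 : τ 0 = o := by
    apply le_antisymm
    · rw [← (hidx o hoF).2]
      exact hτ (Nat.zero_le _)
    · exact ho _
  set k := idx t with hk
  have hkt : τ k = t := (hidx t htF).2
  have hindep := hX.nat hτ
  let f : ℕ → Ω → E := fun i ω => X (τ (i + 1)) ω - X (τ i) ω
  have hf : ∀ i, Measurable (f i) := fun i => (hm _).sub (hm _)
  have hdis : Disjoint (Finset.range k) (Finset.Ico k F.card) := by
    rw [Finset.disjoint_left]
    intro a ha hb
    rw [Finset.mem_range] at ha
    rw [Finset.mem_Ico] at hb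
    omega
  have key := hindep.indepFun_finset (Finset.range k) (Finset.Ico k F.card) hdis hf
  have tele : ∀ (ω : Ω) (m : ℕ), ∑ i ∈ Finset.range m, f i ω = X (τ m) ω - X (τ 0) ω := by
    intro ω m
    exact Finset.sum_range_sub (fun i => X (τ i) ω) m
  let g1 : (Finset.range k → E) → (I → E) := fun y s =>
    ∑ i : Finset.range k, if (i : ℕ) < idx s then y i else 0
  let g2 : (Finset.Ico k F.card → E) → (J → E) := fun y s =>
    ∑ i : Finset.Ico k F.card, if (i : ℕ) < idx s then y i else 0
  have hg1 : Measurable g1 := by
    apply measurable_pi_lambda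
    intro s
    apply Finset.measurable_sum
    intro i _
    split_ifs
    · exact measurable_pi_apply i
    · exact measurable_const
  have hg2 : Measurable g2 := by
    apply measurable_pi_lambda
    intro s
    apply Finset.measurable_sum
    intro i _
    split_ifs
    · exact measurable_pi_apply i
    · exact measurable_const
  have e1 : (fun ω (s : I) => X s ω - X o ω) = g1 ∘ (fun ω (i : Finset.range k) => f i ω) := by
    funext ω s
    simp only [g1, Function.comp]
    rw [Finset.sum_coe_sort (Finset.range k) (fun i => if i < idx s then f i ω else 0),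
      ← Finset.sum_filter]
    have hs := hidx s (hIF s s.2)
    have hle : idx s ≤ k := by
      apply hτinj _ _ hs.1 (hidx t htF).1
      rw [hs.2, hkt]
      exact s.1.2
    have : (Finset.range k).filter (fun i => i < idx s) = Finset.range (idx s) := by
      ext i
      simp only [Finset.mem_filter, Finset.mem_range]
      omega
    rw [this, tele, hτ0, hs.2]
  have e2 : (fun ω (s : J) => X s ω - X t ω) =
      g2 ∘ (fun ω (i : Finset.Ico k F.card) => f i ω) := by
    funext ω s
    simp only [g2, Function.comp]
    rw [Finset.sum_coe_sort (Finset.Ico k F.card) (fun i => if i < idx s then f i ω else 0),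
      ← Finset.sum_filter]
    have hs := hidx s (hJF s s.2)
    have hle : k ≤ idx s := by
      apply hτinj _ _ (hidx t htF).1 hs.1
      rw [hs.2, hkt]
      exact s.1.2
    have : (Finset.Ico k F.card).filter (fun i => i < idx s) = Finset.Ico k (idx s) := by
      ext i
      simp only [Finset.mem_filter, Finset.mem_Ico]
      omega
    rw [this, Finset.sum_Ico_eq_sub _ hle, tele, tele, hs.2, hkt]
    abel
  show IndepFun (fun ω (s : I) => X s ω - X o ω) (fun ω (s : J) => X s ω - X t ω) P
  rw [e1, e2]
  exact key.comp hg1 hg2

end Pool.Agent.SawLim
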