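import Pool.Agent.SawLim92.Supp

/-!
The law of a random continuous curve is determined by the joint laws of its values; a pair of
independent Brownian motions.
-/

set_option autoImplicit false

open MeasureTheory ProbabilityTheory Filter Topology
open scoped NNReal

namespace Pool.Agent.SawLim

/-- all values of a curve -/
def evs (x : C(unitInterval, EuclideanSpace ℝ (Fin 2))) : unitInterval → EuclideanSpace ℝ (Fin 2) :=
  fun t => x t

section

variable [MeasurableSpace C(unitInterval, EuclideanSpace ℝ (Fin 2))]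
  [BorelSpace C(unitInterval, EuclideanSpace ℝ (Fin 2))]

lemma measurable_evs : Measurable evs := by
  apply measurable_pi_lambda
  intro t
  exact measurable_eval' t

/-- the Borel σ-algebra is generated by the evaluations -/
theorem borel_evs (A : Set C(unitInterval, EuclideanSpace ℝ (Fin 2))) (hA : MeasurableSet A) :
    MeasurableSet[MeasurableSpace.comap evs MeasurableSpace.pi] A := by
  have hle : borel C(unitInterval, EuclideanSpace ℝ (Fin 2)) ≤
      MeasurableSpace.comap evs MeasurableSpace.pi := by
    apply MeasurableSpace.generateFrom_le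
    intro U hU
    -- closed balls are measurable
    have hball : ∀ (q : C(unitInterval, EuclideanSpace ℝ (Fin 2))) (ρ : ℝ), 0 ≤ ρ →
        MeasurableSet[MeasurableSpace.comap evs MeasurableSpace.pi] (Metric.closedBall q ρ) := by
      intro q ρ hρ
      obtain ⟨D, hDc, hD⟩ := TopologicalSpace.exists_countable_dense unitInterval
      refine ⟨⋂ r ∈ D, {y | ‖y r - q r‖ ≤ ρ}, ?_, ?_⟩
      · apply MeasurableSet.biInter hDc
        intro r _
        apply measurableSet_le _ measurable_const
        exact (Measurable.sub (measurable_pi_apply r) measurable_const).norm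
      · ext x
        simp only [Set.mem_preimage, Set.mem_iInter, Set.mem_ofPred_eq, Metric.mem_closedBall,
          dist_eq_norm]
        rw [ContinuousMap.norm_le _ hρ]
        constructor
        · intro h
          exact forall_of_dense hD (f := fun r => ‖x r - q r‖) (by fun_prop) h
        · intro h r _
          exact h r
    have hcov : ∀ x : C(unitInterval, EuclideanSpace ℝ (Fin 2)), ∃ r : ℝ, 0 < r ∧
        (x ∈ U → Metric.closedBall x r ⊆ U) := by
      intro x
      by_cases hx : x ∈ U
      · obtain ⟨r, hr, h⟩ := Metric.nhds_basis_closedBall.mem_iff.1 ((show IsOpen U from hU).mem_nhds hx)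
        exact ⟨r, hr, fun _ => h⟩
      · exact ⟨1, one_pos, fun h => absurd h hx⟩
    choose r hr hsub using hcov
    obtain ⟨T, hTU, hTc, hT⟩ := TopologicalSpace.countable_cover_nhdsWithin (s := U)
      (f := fun x => Metric.closedBall x (r x))
      (fun x _ => mem_nhdsWithin_of_mem_nhds (Metric.closedBall_mem_nhds x (hr x)))
    have e : U = ⋃ x ∈ T, Metric.closedBall x (r x) := by
      apply Set.Subset.antisymm hT
      intro y hy
      simp only [Set.mem_iUnion] at hy
      obtain ⟨x, hx, hy⟩ := hy
      exact hsub x (hTU hx) hy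
    rw [e]
    exact MeasurableSet.biUnion hTc (fun x _ => hball x _ (hr x).le)
  have : MeasurableSet[borel C(unitInterval, EuclideanSpace ℝ (Fin 2))] A := by
    rw [← BorelSpace.measurable_eq]
    exact hA
  exact hle A this

/-- two random continuous curves with the same joint laws of values have the same law -/
theorem law_ext {Ω : Type*} [MeasurableSpace Ω] {P : Measure Ω}
    {W W' : Ω → C(unitInterval, EuclideanSpace ℝ (Fin 2))} (hW : Measurable W)
    (hW' : Measurable W') (h : P.map (fun ω => evs (W ω)) = P.map (fun ω => evs (W' ω))) :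
    P.map W = P.map W' := by
  ext A hA
  obtain ⟨A', hA', rfl⟩ := borel_evs A hA
  rw [Measure.map_apply hW hA, Measure.map_apply hW' hA]
  have e1 := Measure.map_apply (μ := P) (measurable_evs.comp hW) hA'
  have e2 := Measure.map_apply (μ := P) (measurable_evs.comp hW') hA'
  have h' : P.map (evs ∘ W) = P.map (evs ∘ W') := h
  rw [h', e2] at e1
  rw [← Set.preimage_comp, ← Set.preimage_comp]
  exact e1.symm

end

/-- `B1`, `B2` are independent (pre-)Brownian motions. -/
structure PBM {Ω : Type*} [MeasurableSpace Ω] (P : Measure Ω) (B1 B2 : ℝ≥0 → Ω → ℝ) : Prop where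
  m1 : ∀ t, Measurable (B1 t)
  m2 : ∀ t, Measurable (B2 t)
  b1 : IsPreBrownianReal B1 P
  b2 : IsPreBrownianReal B2 P
  ind : IndepFun (fun ω t => B1 t ω) (fun ω t => B2 t ω) P

section

variable {Ω : Type*} [MeasurableSpace Ω] {P : Measure Ω}

lemma law_single {B B' : ℝ≥0 → Ω → ℝ} (hm : ∀ t, Measurable (B t)) (hm' : ∀ t, Measurable (B' t))
    (h : IsPreBrownianReal B P) (h' : IsPreBrownianReal B' P) :
    P.map (fun ω t => B t ω) = P.map (fun ω t => B' t ω) := by
  have key : ∀ C : ℝ≥0 → Ω → ℝ, (∀ t, Measurable (C t)) → IsPreBrownianReal C P →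
      IsProjectiveLimit (P.map (fun ω t => C t ω)) BrownianReal.projectiveFamily := by
    intro C hC h I
    rw [Measure.map_map (Finset.measurable_restrict I) (measurable_pi_lambda _ hC)]
    exact (h.hasLaw I).map_eq
  exact IsProjectiveLimit.unique (key B hm h) (key B' hm' h')

lemma law_pair [IsProbabilityMeasure P] {B1 B2 B1' B2' : ℝ≥0 → Ω → ℝ} (h : PBM P B1 B2)
    (h' : PBM P B1' B2') :
    P.map (fun ω => ((fun t => B1 t ω), (fun t => B2 t ω))) =
    P.map (fun ω => ((fun t => B1' t ω), (fun t => B2' t ω))) := by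
  rw [h.ind.map_prod_eq_prod_map_map (measurable_pi_lambda _ h.m1).aemeasurable
    (measurable_pi_lambda _ h.m2).aemeasurable,
    h'.ind.map_prod_eq_prod_map_map (measurable_pi_lambda _ h'.m1).aemeasurable
    (measurable_pi_lambda _ h'.m2).aemeasurable,
    law_single h.m1 h'.m1 h.b1 h'.b1, law_single h.m2 h'.m2 h.b2 h'.b2]

/-- `W` is the path on `[0,1]` of the planar process `(c B1, c B2)`. -/
def Repr (P : Measure Ω) (c : ℝ) (B1 B2 : ℝ≥0 → Ω → ℝ)
    (W : Ω → C(unitInterval, EuclideanSpace ℝ (Fin 2))) : Prop :=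
  ∀ᵐ ω ∂P, ∀ t : unitInterval,
    W ω t = !₂[c * B1 (unitInterval.toNNReal t) ω, c * B2 (unitInterval.toNNReal t) ω]

variable [MeasurableSpace C(unitInterval, EuclideanSpace ℝ (Fin 2))]
  [BorelSpace C(unitInterval, EuclideanSpace ℝ (Fin 2))]

theorem law_repr [IsProbabilityMeasure P] {c : ℝ} {B1 B2 B1' B2' : ℝ≥0 → Ω → ℝ} (h : PBM P B1 B2)
    (h' : PBM P B1' B2') {W W' : Ω → C(unitInterval, EuclideanSpace ℝ (Fin 2))}
    (hW : Measurable W) (hW' : Measurable W') (r : Repr P c B1 B2 W) (r' : Repr P c B1' B2' W') :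
    P.map W = P.map W' := by
  apply law_ext hW hW'
  let Ψ : (ℝ≥0 → ℝ) × (ℝ≥0 → ℝ) → (unitInterval → EuclideanSpace ℝ (Fin 2)) := fun z t =>
    !₂[c * z.1 (unitInterval.toNNReal t), c * z.2 (unitInterval.toNNReal t)]
  have hΨ : Measurable Ψ := by
    apply measurable_pi_lambda
    intro t
    simp only [Ψ]
    fun_prop
  have e1 : P.map (fun ω => evs (W ω)) =
      P.map (Ψ ∘ (fun ω => ((fun t => B1 t ω), (fun t => B2 t ω)))) := by
    apply Measure.map_congr
    filter_upwards [r] with ω hω
    funext t
    exact hω t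
  have e2 : P.map (fun ω => evs (W' ω)) =
      P.map (Ψ ∘ (fun ω => ((fun t => B1' t ω), (fun t => B2' t ω)))) := by
    apply Measure.map_congr
    filter_upwards [r'] with ω hω
    funext t
    exact hω t
  have m1 : Measurable (fun ω => ((fun t => B1 t ω), (fun t => B2 t ω))) :=
    (measurable_pi_lambda _ h.m1).prodMk (measurable_pi_lambda _ h.m2)
  have m2 : Measurable (fun ω => ((fun t => B1' t ω), (fun t => B2' t ω))) :=
    (measurable_pi_lambda _ h'.m1).prodMk (measurable_pi_lambda _ h'.m2)
  rw [e1, e2, ← Measure.map_map hΨ m1, ← Measure.map_map hΨ m2, law_pair h h']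

end

end Pool.Agent.SawLim
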