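import Pool.Agent.SawLim92.Brown

/-!
Planar Brownian motion is almost surely robustly self-crossing.
-/

set_option autoImplicit false

open MeasureTheory ProbabilityTheory Filter Topology
open scoped NNReal

namespace Pool.Agent.SawLim

/-- the time `1/2` -/
noncomputable def half : unitInterval := ⟨1 / 2, by norm_num, by norm_num⟩

/-- the time `2^{-j}` -/
noncomputable def lamj (j : ℕ) : unitInterval := ⟨(1 / 2) ^ j, by positivity, by
  apply pow_le_one₀ <;> norm_num⟩

lemma lamj_pos (j : ℕ) : 0 < (lamj j : ℝ) := by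
  show (0 : ℝ) < (1 / 2) ^ j
  positivity

lemma crossing_of_rsc {κ : ℝ} (hκ : 0 < κ) {lam : unitInterval} (hl : 0 < (lam : ℝ))
    {x : C(unitInterval, EuclideanSpace ℝ (Fin 2))} {a : unitInterval} {η : ℝ} (hη : 0 < η)
    (h : CrossIn a 1 η (rsc κ lam x)) : ∃ η' : ℝ, 0 < η' ∧ CrossIn 0 lam η' x := by
  obtain ⟨t0, t1, t2, t3, -, -, h01, h12, h23, x0, x1, y0, y1, hx, hy, ha, hb, hc, hd, he, hf⟩ := h
  have hmono : ∀ s t : unitInterval, s ≤ t → lam * s ≤ lam * t := by
    intro s t hst
    have : (s : ℝ) ≤ t := hst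
    show (lam : ℝ) * s ≤ lam * t
    exact mul_le_mul_of_nonneg_left this hl.le
  have hval : ∀ (t : unitInterval) (j : Fin 2), x (lam * t) j = rsc κ lam x t j / κ := by
    intro t j
    rw [rsc_apply]
    simp only [PiLp.smul_apply, smul_eq_mul]
    field_simp
  have hpull : ∀ s s' t : unitInterval, lam * s ≤ t → t ≤ lam * s' →
      ∃ r : unitInterval, s ≤ r ∧ r ≤ s' ∧ lam * r = t := by
    intro s s' t h1 h2
    have h1' : (lam : ℝ) * s ≤ t := h1
    have h2' : (t : ℝ) ≤ lam * s' := h2
    refine ⟨⟨(t : ℝ) / lam, div_nonneg t.2.1 hl.le, ?_⟩, ?_, ?_, ?_⟩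
    · rw [div_le_one hl]
      have := s'.2.2
      nlinarith
    · show (s : ℝ) ≤ t / lam
      rw [le_div_iff₀ hl]
      linarith
    · show (t : ℝ) / lam ≤ s'
      rw [div_le_iff₀ hl]
      linarith
    · apply Subtype.ext
      show (lam : ℝ) * (t / lam) = t
      field_simp
  refine ⟨η / κ, by positivity, lam * t0, lam * t1, lam * t2, lam * t3, (lam * t0).2.1, ?_,
    hmono _ _ h01, ?_, hmono _ _ h23, x0 / κ, x1 / κ, y0 / κ, y1 / κ, by gcongr, by gcongr, ?_, ?_, ?_, ?_, ?_, ?_⟩
  · show (lam : ℝ) * t3 ≤ lam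
    have := t3.2.2
    nlinarith
  · have : (t1 : ℝ) < t2 := h12
    show (lam : ℝ) * t1 < lam * t2
    exact mul_lt_mul_of_pos_left this hl
  · intro t h1 h2
    obtain ⟨r, hr1, hr2, rfl⟩ := hpull _ _ _ h1 h2
    rw [hval, ← add_div, ← sub_div]
    have := ha r hr1 hr2
    exact ⟨by gcongr; exact this.1, by gcongr; exact this.2⟩
  · rw [hval, ← sub_div]
    gcongr
  · rw [hval, ← add_div]
    gcongr
  · intro t h1 h2
    obtain ⟨r, hr1, hr2, rfl⟩ := hpull _ _ _ h1 h2
    rw [hval, ← add_div, ← sub_div]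
    have := hd r hr1 hr2
    exact ⟨by gcongr; exact this.1, by gcongr; exact this.2⟩
  · rw [hval, ← add_div]
    gcongr
  · rw [hval, ← sub_div]
    gcongr

/-- curves whose increments over `[1/2,1]`, after rescaling, follow those of `q` -/
def Nj (q : C(unitInterval, EuclideanSpace ℝ (Fin 2))) (ε κ : ℝ) (lam : unitInterval) :
    Set C(unitInterval, EuclideanSpace ℝ (Fin 2)) :=
  {x | ∀ r, half ≤ r → ‖rsc κ lam x r - rsc κ lam x half - (q r - q half)‖ ≤ ε}

section

variable [MeasurableSpace C(unitInterval, EuclideanSpace ℝ (Fin 2))]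
  [BorelSpace C(unitInterval, EuclideanSpace ℝ (Fin 2))]
  {μ : Measure C(unitInterval, EuclideanSpace ℝ (Fin 2))}

omit [MeasurableSpace C(unitInterval, EuclideanSpace ℝ (Fin 2))]
  [BorelSpace C(unitInterval, EuclideanSpace ℝ (Fin 2))] in
lemma Nj_meas (q : C(unitInterval, EuclideanSpace ℝ (Fin 2))) (ε κ : ℝ) (lam : unitInterval)
    (S : Set unitInterval) (a : unitInterval) (hS : ∀ r, half ≤ r → lam * r ∈ S) :
    MeasurableSet[MeasurableSpace.comap
      (fun (x : C(unitInterval, EuclideanSpace ℝ (Fin 2))) (s : S) => x s - x a)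
      MeasurableSpace.pi] (Nj q ε κ lam) := by
  obtain ⟨D, hDc, hD⟩ := TopologicalSpace.exists_countable_dense (Set.Ici half)
  refine ⟨⋂ r ∈ D, {y | ‖κ • y ⟨lam * r, hS r r.2⟩ - κ • y ⟨lam * half, hS half le_rfl⟩ -
    (q r - q half)‖ ≤ ε}, ?_, ?_⟩
  · apply MeasurableSet.biInter hDc
    intro r _
    apply measurableSet_le _ measurable_const
    apply Measurable.norm
    apply Measurable.sub _ measurable_const
    exact ((measurable_pi_apply _).const_smul κ).sub ((measurable_pi_apply _).const_smul κ)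
  · ext x
    simp only [Set.mem_preimage, Set.mem_iInter, Set.mem_ofPred_eq, Nj]
    have e : ∀ r : unitInterval, κ • (x (lam * r) - x a) - κ • (x (lam * half) - x a) -
        (q r - q half) = rsc κ lam x r - rsc κ lam x half - (q r - q half) := by
      intro r
      rw [rsc_apply, rsc_apply, smul_sub, smul_sub]
      abel
    constructor
    · intro h r hr
      have := forall_of_dense hD
        (f := fun r : Set.Ici half => ‖rsc κ lam x r - rsc κ lam x half - (q r - q half)‖)
        (by fun_prop) (fun r hr => by rw [← e]; exact h r hr)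
      exact this ⟨r, hr⟩
    · intro h r _
      rw [e]
      exact h r r.2

/-- under a law with independent increments, invariant under Brownian scaling and the symmetries of
the square, starting at the origin and not constant on `[1/2,1]`, almost every curve crosses itself
robustly during every time interval `[0,2^{-k}]` -/
theorem crossing_full [IsProbabilityMeasure μ] (h0 : ∀ᵐ x ∂μ, x 0 = 0)
    (hX : HasIndepIncrements (fun t (x : C(unitInterval, EuclideanSpace ℝ (Fin 2))) => x t) μ)
    (hinv : ∀ (e : Fin 2 → ℝ) (σ : Equiv.Perm (Fin 2)), (∀ j, e j = 1 ∨ e j = -1) →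
      μ.map (act e σ) = μ)
    (hsc : ∀ lam : unitInterval, 0 < (lam : ℝ) → μ.map (rsc (Real.sqrt lam)⁻¹ lam) = μ)
    (hnc : μ {x | x half 0 = x 1 0} = 0) (k₀ : ℕ) :
    μ {x | ∃ η : ℝ, 0 < η ∧ CrossIn 0 (lamj k₀) η x}ᶜ = 0 := by
  -- a non-constant point of the support
  obtain ⟨p, hp, hpne⟩ : ∃ p ∈ supp μ, p half 0 ≠ p 1 0 := by
    by_contra hcon
    push Not at hcon
    have hnull : μ {x : C(unitInterval, EuclideanSpace ℝ (Fin 2)) | x half 0 ≠ x 1 0} = 0 := by
      apply measure_null_of_locally_null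
      intro p hp
      have hp' : p ∉ supp μ := fun hc => hp (hcon p hc)
      simp only [supp, Set.mem_ofPred_eq, not_forall] at hp'
      obtain ⟨ρ, hρ, hnull⟩ := hp'
      refine ⟨Metric.ball p ρ, mem_nhdsWithin_of_mem_nhds (Metric.ball_mem_nhds p hρ), ?_⟩
      refine measure_mono_null ?_ (le_antisymm (not_lt.1 hnull) zero_le)
      intro x hx t
      rw [Metric.mem_ball, dist_eq_norm] at hx
      have := (x - p).norm_coe_le_norm t
      rw [ContinuousMap.sub_apply] at this
      linarith
    have huniv : μ Set.univ = 0 := by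
      refine measure_mono_null ?_ (measure_union_null hnc hnull)
      intro x _
      by_cases hx : x half 0 = x 1 0
      · exact Or.inl hx
      · exact Or.inr hx
    rw [measure_univ] at huniv
    exact one_ne_zero huniv
  obtain ⟨q, hq, η, hη, hcross⟩ := steer (turnClosed_supp h0 hX hinv) p hp half 1
    (unitInterval.le_one _) 0 hpne
  let κ : ℕ → ℝ := fun j => (Real.sqrt (lamj j))⁻¹
  have hκ : ∀ j, 0 < κ j := fun j => inv_pos.2 (Real.sqrt_pos.2 (lamj_pos j))
  let N : ℕ → Set C(unitInterval, EuclideanSpace ℝ (Fin 2)) := fun j => Nj q (η / 2) (κ j) (lamj j)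
  let N0 : Set C(unitInterval, EuclideanSpace ℝ (Fin 2)) :=
    {x | ∀ r, half ≤ r → ‖x r - x half - (q r - q half)‖ ≤ η / 2}
  have hN0c : IsClosed N0 := by
    have : N0 = ⋂ r : unitInterval, ⋂ _ : half ≤ r,
        {x | ‖x r - x half - (q r - q half)‖ ≤ η / 2} := by
      ext x
      simp [N0]
    rw [this]
    apply isClosed_iInter
    intro r
    apply isClosed_iInter
    intro _
    apply isClosed_le _ continuous_const
    have c1 : Continuous fun x : C(unitInterval, EuclideanSpace ℝ (Fin 2)) => x r :=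
      ContinuousEvalConst.continuous_eval_const r
    have c2 : Continuous fun x : C(unitInterval, EuclideanSpace ℝ (Fin 2)) => x half :=
      ContinuousEvalConst.continuous_eval_const half
    exact ((c1.sub c2).sub continuous_const).norm
  have hNpre : ∀ j, N j = rsc (κ j) (lamj j) ⁻¹' N0 := fun j => rfl
  have hNmeas : ∀ j, MeasurableSet (N j) := by
    intro j
    rw [hNpre]
    exact (continuous_rsc _ _).measurable hN0c.measurableSet
  have hNmu : ∀ j, μ (N j) = μ N0 := by
    intro j
    have h1 := hsc (lamj j) (lamj_pos j)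
    have h2 : μ N0 = (μ.map (rsc (Real.sqrt (lamj j))⁻¹ (lamj j))) N0 := by rw [h1]
    rw [h2, Measure.map_apply (continuous_rsc _ _).measurable hN0c.measurableSet]
    rfl
  have hN0pos : 0 < μ N0 := by
    refine lt_of_lt_of_le (hq (η / 4) (by positivity)) (measure_mono ?_)
    intro x hx r _
    have h1 := hx r
    have h2 := hx half
    calc ‖x r - x half - (q r - q half)‖ = ‖(x r - q r) - (x half - q half)‖ := by
          congr 1; abel
      _ ≤ ‖x r - q r‖ + ‖x half - q half‖ := norm_sub_le _ _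
      _ ≤ η / 2 := by linarith
  have hNcross : ∀ j, k₀ ≤ j → N j ⊆ {x | ∃ η : ℝ, 0 < η ∧ CrossIn 0 (lamj k₀) η x} := by
    intro j hj x hx
    rw [hNpre] at hx
    obtain ⟨η', hη', t0, t1, t2, t3, a1, a2, a3⟩ := crossing_of_rsc (hκ j) (lamj_pos j)
      (by positivity : 0 < η / 2) (hcross.near (fun t h1 _ => hx t h1))
    refine ⟨η', hη', t0, t1, t2, t3, a1, a2.trans ?_, a3⟩
    show ((1 : ℝ) / 2) ^ j ≤ (1 / 2) ^ k₀
    exact pow_le_pow_of_le_one (by norm_num) (by norm_num) hj
  -- independence
  have hF : ∀ k, μ (⋂ j ∈ Finset.range k, (N (k₀ + j))ᶜ) = (μ N0ᶜ) ^ k := by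
    intro k
    induction k with
    | zero => simp
    | succ k ih =>
      have hind := past_future hX measurable_eval' 0 (lamj (k₀ + k)) (fun s => s.2.1)
      have hind' := (IndepFun_iff_Indep _ _ _).1 hind
      rw [Indep_iff] at hind'
      have hpast : MeasurableSet[MeasurableSpace.comap
          (fun (x : C(unitInterval, EuclideanSpace ℝ (Fin 2))) (s : Set.Iic (lamj (k₀ + k))) =>
            x s - x 0) MeasurableSpace.pi] (N (k₀ + k))ᶜ := by
        apply MeasurableSet.compl
        apply Nj_meas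
        intro r _
        show (lamj (k₀ + k) : ℝ) * r ≤ lamj (k₀ + k)
        have := r.2.2
        have := lamj_pos (k₀ + k)
        nlinarith
      have hfut : MeasurableSet[MeasurableSpace.comap
          (fun (x : C(unitInterval, EuclideanSpace ℝ (Fin 2))) (s : Set.Ici (lamj (k₀ + k))) =>
            x s - x (lamj (k₀ + k))) MeasurableSpace.pi]
            (⋂ j ∈ Finset.range k, (N (k₀ + j))ᶜ) := by
        apply Finset.measurableSet_biInter
        intro j hj
        apply MeasurableSet.compl
        apply Nj_meas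
        intro r hr
        rw [Finset.mem_range] at hj
        have hr' : (1 / 2 : ℝ) ≤ r := hr
        show ((1 : ℝ) / 2) ^ (k₀ + k) ≤ (1 / 2) ^ (k₀ + j) * r
        calc ((1 : ℝ) / 2) ^ (k₀ + k) ≤ (1 / 2) ^ (k₀ + j + 1) :=
              pow_le_pow_of_le_one (by norm_num) (by norm_num) (by omega)
          _ = (1 / 2) ^ (k₀ + j) * (1 / 2) := pow_succ _ _
          _ ≤ (1 / 2) ^ (k₀ + j) * r := by gcongr
      have := hind' _ _ hpast hfut
      rw [Finset.range_add_one, Finset.set_biInter_insert, this, ih, pow_succ, mul_comm]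
      congr 1
      rw [prob_compl_eq_one_sub (hNmeas _), hNmu, prob_compl_eq_one_sub hN0c.measurableSet]
  have hlt : μ N0ᶜ < 1 := by
    rw [prob_compl_eq_one_sub hN0c.measurableSet]
    exact ENNReal.sub_lt_self ENNReal.one_ne_top one_ne_zero hN0pos.ne'
  have hle : ∀ k, μ {x | ∃ η : ℝ, 0 < η ∧ CrossIn 0 (lamj k₀) η x}ᶜ ≤ (μ N0ᶜ) ^ k := by
    intro k
    rw [← hF k]
    apply measure_mono
    intro x hx
    simp only [Set.mem_iInter]
    intro j _ hxN
    exact hx (hNcross _ (Nat.le_add_right _ _) hxN)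
  have htend := ENNReal.tendsto_pow_atTop_nhds_zero_of_lt_one hlt
  exact le_antisymm (ge_of_tendsto' htend hle) zero_le

/-- **Planar Brownian motion crosses itself robustly in every time interval `[0,2^{-k}]`, almost
surely.** -/
theorem brown_crossing {Ω : Type*} [MeasurableSpace Ω] {P : Measure Ω} [IsProbabilityMeasure P]
    {c : ℝ} (hc : c ≠ 0) {B1 B2 : ℝ≥0 → Ω → ℝ} (h : PBM P B1 B2)
    {W : Ω → C(unitInterval, EuclideanSpace ℝ (Fin 2))} (hW : Measurable W)
    (r : Repr P c B1 B2 W) (k : ℕ) :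
    (P.map W) {x | ∃ η : ℝ, 0 < η ∧ CrossIn 0 (lamj k) η x}ᶜ = 0 := by
  have : IsProbabilityMeasure (P.map W) := Measure.isProbabilityMeasure_map hW.aemeasurable
  refine crossing_full (start_repr h hW r) (incr_map h hW r)
    (inv_all (map_swap h hW r) (map_neg' h hW r)) (fun lam hl => map_scale h hW r lam hl) ?_ k
  have hm : MeasurableSet {x : C(unitInterval, EuclideanSpace ℝ (Fin 2)) | x half 0 = x 1 0} := by
    apply measurableSet_eq_fun
    · exact (by fun_prop : Measurable fun z : EuclideanSpace ℝ (Fin 2) => z 0).comp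
        (measurable_eval' half)
    · exact (by fun_prop : Measurable fun z : EuclideanSpace ℝ (Fin 2) => z 0).comp
        (measurable_eval' 1)
  rw [Measure.map_apply hW hm]
  have hlaw := h.b1.hasLaw_sub (unitInterval.toNNReal 1) (unitInterval.toNNReal half)
  have hpos : nndist ((unitInterval.toNNReal 1 : ℝ≥0) : ℝ) ((unitInterval.toNNReal half : ℝ≥0) : ℝ)
      ≠ 0 := by
    rw [Ne, nndist_eq_zero]
    simp [half]
  have hna := nullSingletonClass_gaussianReal (μ := 0) hpos
  have hz : P {ω | (B1 (unitInterval.toNNReal 1) - B1 (unitInterval.toNNReal half)) ω = 0} = 0 := by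
    have e := hlaw.map_eq
    have e2 : (P.map (B1 (unitInterval.toNNReal 1) - B1 (unitInterval.toNNReal half))) {0} = 0 := by
      rw [e]
      exact @measure_singleton _ _ _ hna 0
    rw [Measure.map_apply ((h.m1 _).sub (h.m1 _)) (measurableSet_singleton 0)] at e2
    exact e2
  have hle : P (W ⁻¹' {x | x half 0 = x 1 0}) ≤
      P {ω | (B1 (unitInterval.toNNReal 1) - B1 (unitInterval.toNNReal half)) ω = 0} := by
    apply measure_mono_ae
    filter_upwards [r] with ω hω hx
    have hx' : W ω half 0 = W ω 1 0 := hx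
    rw [hω, hω] at hx'
    simp only [Matrix.cons_val_zero] at hx'
    have := mul_left_cancel₀ hc hx'
    show B1 (unitInterval.toNNReal 1) ω - B1 (unitInterval.toNNReal half) ω = 0
    rw [this, sub_self]
  exact le_antisymm (hle.trans hz.le) zero_le

end

end Pool.Agent.SawLim
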