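import Pool.Agent.SawLim92.CrossSet

/-!
Steering: a set of plane curves which is closed under applying signed permutation matrices to the
increments after a time `t`, and which contains a non-constant curve, contains a robustly
self-crossing curve.
-/

set_option autoImplicit false

namespace Pool.Agent.SawLim

/-- signed permutation matrices acting on the plane -/
noncomputable def sp (e : Fin 2 → ℝ) (σ : Equiv.Perm (Fin 2)) (x : EuclideanSpace ℝ (Fin 2)) :
    EuclideanSpace ℝ (Fin 2) := WithLp.toLp 2 (fun j => e j * x (σ j))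

@[simp] lemma sp_apply (e : Fin 2 → ℝ) (σ : Equiv.Perm (Fin 2)) (x : EuclideanSpace ℝ (Fin 2))
    (j : Fin 2) : sp e σ x j = e j * x (σ j) := rfl

@[fun_prop] lemma continuous_sp (e : Fin 2 → ℝ) (σ : Equiv.Perm (Fin 2)) :
    Continuous (sp e σ) := by
  unfold sp
  fun_prop

lemma sp_sub (e : Fin 2 → ℝ) (σ : Equiv.Perm (Fin 2)) (x y : EuclideanSpace ℝ (Fin 2)) :
    sp e σ (x - y) = sp e σ x - sp e σ y := by
  ext j
  simp [mul_sub]

lemma sp_zero (e : Fin 2 → ℝ) (σ : Equiv.Perm (Fin 2)) : sp e σ 0 = 0 := by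
  ext j
  simp

/-- apply a signed permutation to the increments after time `t` -/
noncomputable def turn (t : unitInterval) (e : Fin 2 → ℝ) (σ : Equiv.Perm (Fin 2))
    (p : C(unitInterval, EuclideanSpace ℝ (Fin 2))) : C(unitInterval, EuclideanSpace ℝ (Fin 2)) where
  toFun r := p (min r t) + sp e σ (p (max r t) - p t)
  continuous_toFun := by fun_prop

lemma turn_le {t : unitInterval} (e : Fin 2 → ℝ) (σ : Equiv.Perm (Fin 2))
    (p : C(unitInterval, EuclideanSpace ℝ (Fin 2))) {r : unitInterval} (h : r ≤ t) :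
    turn t e σ p r = p r := by
  show p (min r t) + sp e σ (p (max r t) - p t) = p r
  rw [min_eq_left h, max_eq_right h, sub_self, sp_zero, add_zero]

lemma turn_ge {t : unitInterval} (e : Fin 2 → ℝ) (σ : Equiv.Perm (Fin 2))
    (p : C(unitInterval, EuclideanSpace ℝ (Fin 2))) {r : unitInterval} (h : t ≤ r) :
    turn t e σ p r = p t + sp e σ (p r - p t) := by
  show p (min r t) + sp e σ (p (max r t) - p t) = _
  rw [min_eq_right h, max_eq_left h]

/-- closedness of a set of curves under turning -/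
def TurnClosed (S : Set C(unitInterval, EuclideanSpace ℝ (Fin 2))) : Prop :=
  ∀ p ∈ S, ∀ (t : unitInterval) (e : Fin 2 → ℝ) (σ : Equiv.Perm (Fin 2)),
    (∀ j, e j = 1 ∨ e j = -1) → turn t e σ p ∈ S

lemma scalar_steer (d i η : ℝ) (h : |i| ≤ η) :
    ∃ e : ℝ, (e = 1 ∨ e = -1) ∧ |d + e * i| ≤ max (|d| - |i|) η := by
  rcases abs_cases d with ⟨h1, h1'⟩ | ⟨h1, h1'⟩ <;> rcases abs_cases i with ⟨h2, h2'⟩ | ⟨h2, h2'⟩
  · refine ⟨-1, Or.inr rfl, ?_⟩
    rcases abs_cases (d + -1 * i) with ⟨h3, h3'⟩ | ⟨h3, h3'⟩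
    · exact le_max_of_le_left (by linarith)
    · exact le_max_of_le_right (by linarith)
  · refine ⟨1, Or.inl rfl, ?_⟩
    rcases abs_cases (d + 1 * i) with ⟨h3, h3'⟩ | ⟨h3, h3'⟩
    · exact le_max_of_le_left (by linarith)
    · exact le_max_of_le_right (by linarith)
  · refine ⟨1, Or.inl rfl, ?_⟩
    rcases abs_cases (d + 1 * i) with ⟨h3, h3'⟩ | ⟨h3, h3'⟩
    · exact le_max_of_le_right (by linarith)
    · exact le_max_of_le_left (by linarith)
  · refine ⟨-1, Or.inr rfl, ?_⟩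
    rcases abs_cases (d + -1 * i) with ⟨h3, h3'⟩ | ⟨h3, h3'⟩
    · exact le_max_of_le_right (by linarith)
    · exact le_max_of_le_left (by linarith)

/-- one short piece -/
lemma piece {S : Set C(unitInterval, EuclideanSpace ℝ (Fin 2))} (hS : TurnClosed S)
    (σ : Equiv.Perm (Fin 2)) (A : Fin 2 → ℝ) (η : ℝ)
    (q : C(unitInterval, EuclideanSpace ℝ (Fin 2))) (hq : q ∈ S) (u m : unitInterval) (hum : u ≤ m)
    (hmod : ∀ r, u ≤ r → r ≤ m → ∀ j, |q r j - q u j| ≤ η) :
    ∃ q' ∈ S, (∀ r, r ≤ u → q' r = q r) ∧ (∀ r, m ≤ r → q' r - q' m = q r - q m) ∧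
      (∀ j, |q' m j - A j| ≤ max (|q u j - A j| - |q m (σ j) - q u (σ j)|) η) ∧
      (∀ r, u ≤ r → r ≤ m → ∀ j, |q' r j - A j| ≤ |q u j - A j| + η) := by
  have hex : ∀ j, ∃ e : ℝ, (e = 1 ∨ e = -1) ∧
      |(q u j - A j) + e * (q m (σ j) - q u (σ j))| ≤
        max (|q u j - A j| - |q m (σ j) - q u (σ j)|) η := fun j =>
    scalar_steer _ _ _ (hmod m hum le_rfl (σ j))
  choose e he1 he2 using hex
  have hq1 := hS q hq u e σ he1
  have hq2 := hS _ hq1 m (fun j => e (σ⁻¹ j)) σ⁻¹ (fun j => he1 _)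
  refine ⟨_, hq2, ?_, ?_, ?_, ?_⟩
  · intro r hr
    rw [turn_le _ _ _ (hr.trans hum), turn_le _ _ _ hr]
  · intro r hr
    rw [turn_ge _ _ _ hr, turn_ge _ _ _ (le_refl m), sub_self, sp_zero, add_zero,
      add_sub_cancel_left, turn_ge _ _ _ (hum.trans hr), turn_ge _ _ _ hum]
    ext j
    simp only [sp_apply, PiLp.sub_apply, PiLp.add_apply]
    have h1 : σ (σ⁻¹ j) = j := by simp
    have h2 : e (σ⁻¹ j) * e (σ⁻¹ j) = 1 := by
      rcases he1 (σ⁻¹ j) with h | h <;> rw [h] <;> norm_num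
    rw [h1]
    linear_combination (q r j - q m j) * h2
  · intro j
    rw [turn_ge _ _ _ (le_refl m), sub_self, sp_zero, add_zero, turn_ge _ _ _ hum]
    simp only [sp_apply, PiLp.sub_apply, PiLp.add_apply]
    refine le_trans (le_of_eq ?_) (he2 j)
    congr 1
    ring
  · intro r hr1 hr2 j
    rw [turn_le _ _ _ hr2, turn_ge _ _ _ hr1]
    simp only [sp_apply, PiLp.sub_apply, PiLp.add_apply]
    have h1 := hmod r hr1 hr2 (σ j)
    have h2 : |e j * (q r (σ j) - q u (σ j))| ≤ η := by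
      rw [abs_mul]
      rcases he1 j with h | h <;> rw [h] <;> simpa using h1
    calc |q u j + e j * (q r (σ j) - q u (σ j)) - A j|
        = |(q u j - A j) + e j * (q r (σ j) - q u (σ j))| := by congr 1; ring
      _ ≤ |q u j - A j| + |e j * (q r (σ j) - q u (σ j))| := abs_add_le _ _
      _ ≤ _ := by linarith

/-- a leg: steer both coordinates towards `A` during `[u,v]` -/
lemma leg {S : Set C(unitInterval, EuclideanSpace ℝ (Fin 2))} (hS : TurnClosed S)
    (σ : Equiv.Perm (Fin 2)) (A : Fin 2 → ℝ) (η δ : ℝ) (hη : 0 < η) (hδ : 0 < δ) (k : ℕ) :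
    ∀ (q : C(unitInterval, EuclideanSpace ℝ (Fin 2))), q ∈ S → ∀ u v : unitInterval, u ≤ v →
    (v : ℝ) - u ≤ k * δ →
    (∀ r r' : unitInterval, u ≤ r → r ≤ r' → r' ≤ v → (r' : ℝ) - r ≤ δ →
      ∀ j, |q r' j - q r j| ≤ η) →
    ∃ q' ∈ S, (∀ r, r ≤ u → q' r = q r) ∧ (∀ r, v ≤ r → q' r - q' v = q r - q v) ∧
      (∀ j, |q' v j - A j| ≤ max (|q u j - A j| - |q v (σ j) - q u (σ j)|) η) ∧
      (∀ r, u ≤ r → r ≤ v → ∀ j, |q' r j - A j| ≤ max |q u j - A j| η + η) := by
  induction k with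
  | zero =>
    intro q hq u v huv hle hmod
    have huv' : u = v := by
      apply le_antisymm huv
      have : (v : ℝ) ≤ u := by
        rw [Nat.cast_zero, zero_mul] at hle
        linarith
      exact_mod_cast this
    subst huv'
    refine ⟨q, hq, fun _ _ => rfl, fun _ _ => rfl, ?_, ?_⟩
    · intro j
      rw [sub_self, abs_zero, sub_zero]
      exact le_max_left _ _
    · intro r h1 h2 j
      have : r = u := le_antisymm h2 h1
      subst this
      have := le_max_left |q r j - A j| η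
      linarith
  | succ k ih =>
    intro q hq u v huv hle hmod
    obtain ⟨m, hum, hmv, hm1, hm2⟩ : ∃ m : unitInterval, u ≤ m ∧ m ≤ v ∧ (m : ℝ) - u ≤ δ ∧
        (v : ℝ) - m ≤ k * δ := by
      by_cases c : (v : ℝ) - u ≤ δ
      · exact ⟨v, huv, le_rfl, c, by rw [sub_self]; positivity⟩
      · push Not at c
        have hu := u.2.1
        have hv := v.2.2
        refine ⟨⟨(u : ℝ) + δ, by linarith, by linarith⟩, ?_, ?_, ?_, ?_⟩
        · show (u : ℝ) ≤ u + δ
          linarith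
        · show (u : ℝ) + δ ≤ v
          linarith
        · show (u : ℝ) + δ - u ≤ δ
          linarith
        · show (v : ℝ) - (u + δ) ≤ k * δ
          push_cast at hle
          linarith
    obtain ⟨q1, hq1, c1, c2, c3, c4⟩ := piece hS σ A η q hq u m hum (by
      intro r hr1 hr2 j
      have hr2' : (r : ℝ) ≤ m := by exact_mod_cast hr2
      exact hmod u r le_rfl hr1 (hr2.trans hmv) (by linarith) j)
    have hinc : ∀ r r', m ≤ r → m ≤ r' → ∀ j, q1 r' j - q1 r j = q r' j - q r j := by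
      intro r r' h1 h2 j
      have e1 := congrArg (fun x : EuclideanSpace ℝ (Fin 2) => x j) (c2 r h1)
      have e2 := congrArg (fun x : EuclideanSpace ℝ (Fin 2) => x j) (c2 r' h2)
      simp only [PiLp.sub_apply] at e1 e2
      linarith
    obtain ⟨q2, hq2, d1, d2, d3, d4⟩ := ih q1 hq1 m v hmv hm2 (by
      intro r r' h1 h2 h3 h4 j
      rw [hinc r r' h1 (h1.trans h2)]
      exact hmod r r' (hum.trans h1) h2 h3 h4 j)
    refine ⟨q2, hq2, ?_, ?_, ?_, ?_⟩
    · intro r hr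
      rw [d1 r (hr.trans hum), c1 r hr]
    · intro r hr
      rw [d2 r hr]
      have e1 := c2 r (hmv.trans hr)
      have e2 := c2 v hmv
      have : q1 r - q1 v = (q1 r - q1 m) - (q1 v - q1 m) := by abel
      rw [this, e1, e2]
      abel
    · intro j
      have e1 := d3 j
      have e2 := c3 j
      rw [hinc m v le_rfl hmv] at e1
      have e3 : |q v (σ j) - q u (σ j)| ≤ |q m (σ j) - q u (σ j)| + |q v (σ j) - q m (σ j)| := by
        have := abs_add_le (q m (σ j) - q u (σ j)) (q v (σ j) - q m (σ j))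
        rwa [show q m (σ j) - q u (σ j) + (q v (σ j) - q m (σ j)) = q v (σ j) - q u (σ j) by ring]
          at this
      have e4 := abs_nonneg (q v (σ j) - q m (σ j))
      refine e1.trans (max_le ?_ (le_max_right _ _))
      rcases le_total (|q u j - A j| - |q m (σ j) - q u (σ j)|) η with hc | hc
      · rw [max_eq_right hc] at e2
        exact le_max_of_le_right (by linarith)
      · rw [max_eq_left hc] at e2
        exact le_max_of_le_left (by linarith)
    · intro r h1 h2 j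
      have e2 := c3 j
      have e5 := abs_nonneg (q m (σ j) - q u (σ j))
      have g1 := le_max_left |q u j - A j| η
      have g2 := le_max_right |q u j - A j| η
      have e6 : |q1 m j - A j| ≤ max |q u j - A j| η :=
        e2.trans (max_le_max (by linarith) le_rfl)
      rcases le_total r m with hc | hc
      · rw [d1 r hc]
        have := c4 r h1 hc j
        linarith
      · have := d4 r hc h2 j
        have e7 : max |q1 m j - A j| η ≤ max |q u j - A j| η := max_le e6 g2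
        linarith

lemma exists_modulus (p : C(unitInterval, EuclideanSpace ℝ (Fin 2))) {η : ℝ} (hη : 0 < η) :
    ∃ δ : ℝ, 0 < δ ∧ ∀ r r' : unitInterval, r ≤ r' → (r' : ℝ) - r ≤ δ →
      ∀ j, |p r' j - p r j| ≤ η := by
  have huc := CompactSpace.uniformContinuous_of_continuous p.continuous
  rw [Metric.uniformContinuous_iff] at huc
  obtain ⟨δ, hδ, h⟩ := huc η hη
  refine ⟨δ / 2, by positivity, ?_⟩
  intro r r' h1 h2 j
  have h1' : (r : ℝ) ≤ r' := by exact_mod_cast h1
  have hd : dist r' r < δ := by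
    rw [Subtype.dist_eq, Real.dist_eq, abs_of_nonneg (by linarith)]
    linarith
  have := h hd
  rw [dist_eq_norm] at this
  have h3 := abs_coord_le (p r' - p r) j
  simp only [PiLp.sub_apply] at h3
  linarith

lemma ivt_time (p : C(unitInterval, EuclideanSpace ℝ (Fin 2))) (j : Fin 2) (a b : unitInterval)
    (hab : a ≤ b) (y : ℝ) (hy : y ∈ Set.uIcc (p a j) (p b j)) :
    ∃ r, a ≤ r ∧ r ≤ b ∧ p r j = y := by
  have hc : ContinuousOn (fun r => p r j) (Set.uIcc a b) := by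
    apply Continuous.continuousOn
    fun_prop
  obtain ⟨r, hr, he⟩ := intermediate_value_uIcc hc hy
  rw [Set.uIcc_of_le hab] at hr
  exact ⟨r, hr.1, hr.2, he⟩

/-- robust self-crossing during the time interval `[a,b]` -/
def CrossIn (a b : unitInterval) (η : ℝ) (p : C(unitInterval, EuclideanSpace ℝ (Fin 2))) : Prop :=
  ∃ t0 t1 t2 t3 : unitInterval, a ≤ t0 ∧ t3 ≤ b ∧ t0 ≤ t1 ∧ t1 < t2 ∧ t2 ≤ t3 ∧
  ∃ x0 x1 y0 y1 : ℝ, x0 < x1 ∧ y0 < y1 ∧
    (∀ t, t0 ≤ t → t ≤ t1 → y0 + η < p t 1 ∧ p t 1 < y1 - η) ∧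
    p t0 0 < x0 - η ∧ x1 + η < p t1 0 ∧
    (∀ t, t2 ≤ t → t ≤ t3 → x0 + η < p t 0 ∧ p t 0 < x1 - η) ∧
    y1 + η < p t2 1 ∧ p t3 1 < y0 - η

lemma CrossIn.cross {a b : unitInterval} {η : ℝ} {p : C(unitInterval, EuclideanSpace ℝ (Fin 2))}
    (h : CrossIn a b η p) : Cross η p := by
  obtain ⟨t0, t1, t2, t3, -, -, h⟩ := h
  exact ⟨t0, t1, t2, t3, h⟩

lemma CrossIn.near {a b : unitInterval} {η : ℝ} {p q : C(unitInterval, EuclideanSpace ℝ (Fin 2))}
    (h : CrossIn a b η p)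
    (hq : ∀ t, a ≤ t → t ≤ b → ‖q t - q a - (p t - p a)‖ ≤ η / 2) : CrossIn a b (η / 2) q := by
  obtain ⟨t0, t1, t2, t3, h0, h3, h01, h12, h23, x0, x1, y0, y1, hx, hy, ha, hb, hc, hd, he, hf⟩ := h
  have key : ∀ t, a ≤ t → t ≤ b → ∀ (j : Fin 2), |q t j - (q a j - p a j) - p t j| ≤ η / 2 := by
    intro t h1 h2 j
    have := abs_coord_le (q t - q a - (p t - p a)) j
    have e : (q t - q a - (p t - p a)) j = q t j - (q a j - p a j) - p t j := by
      simp only [PiLp.sub_apply]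
      ring
    rw [e] at this
    exact this.trans (hq t h1 h2)
  have a0 : a ≤ t0 := h0
  have a1 : a ≤ t1 := a0.trans h01
  have a2 : a ≤ t2 := a1.trans h12.le
  have a3 : a ≤ t3 := a2.trans h23
  have b3 : t3 ≤ b := h3
  have b2 : t2 ≤ b := h23.trans b3
  have b1 : t1 ≤ b := h12.le.trans b2
  have b0 : t0 ≤ b := h01.trans b1
  refine ⟨t0, t1, t2, t3, h0, h3, h01, h12, h23, x0 + (q a 0 - p a 0), x1 + (q a 0 - p a 0),
    y0 + (q a 1 - p a 1), y1 + (q a 1 - p a 1), by linarith, by linarith, ?_, ?_, ?_, ?_, ?_, ?_⟩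
  · intro t h1 h2
    have u := abs_le.1 (key t (a0.trans h1) (h2.trans b1) 1)
    have v := ha t h1 h2
    constructor <;> linarith
  · have u := abs_le.1 (key t0 a0 b0 0); linarith
  · have u := abs_le.1 (key t1 a1 b1 0); linarith
  · intro t h1 h2
    have u := abs_le.1 (key t (a2.trans h1) (h2.trans b3) 0)
    have v := hd t h1 h2
    constructor <;> linarith
  · have u := abs_le.1 (key t2 a2 b2 1); linarith
  · have u := abs_le.1 (key t3 a3 b3 1); linarith

/-- **Steering.** -/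
theorem steer {S : Set C(unitInterval, EuclideanSpace ℝ (Fin 2))} (hS : TurnClosed S)
    (p : C(unitInterval, EuclideanSpace ℝ (Fin 2))) (hp : p ∈ S) (a b : unitInterval) (hab : a ≤ b)
    (j0 : Fin 2) (hne : p a j0 ≠ p b j0) : ∃ q ∈ S, ∃ η : ℝ, 0 < η ∧ CrossIn a b η q := by
  obtain ⟨Δ, hΔ⟩ : ∃ Δ : ℝ, Δ = p b j0 - p a j0 := ⟨_, rfl⟩
  have hΔ0 : Δ ≠ 0 := by rw [hΔ]; exact sub_ne_zero.2 hne.symm
  have hD : 0 < |Δ| := abs_pos.2 hΔ0
  have hpb : p b j0 = p a j0 + Δ := by rw [hΔ]; ring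
  -- intermediate times
  obtain ⟨τ1, h1a, h1b, h1⟩ := ivt_time p j0 a b hab (p a j0 + Δ / 4) (by
    rw [hpb, Set.mem_uIcc]
    rcases le_total 0 Δ with h | h
    · left; constructor <;> linarith
    · right; constructor <;> linarith)
  obtain ⟨τ2, h2a, h2b, h2⟩ := ivt_time p j0 τ1 b h1b (p a j0 + Δ / 2) (by
    rw [hpb, h1, Set.mem_uIcc]
    rcases le_total 0 Δ with h | h
    · left; constructor <;> linarith
    · right; constructor <;> linarith)
  obtain ⟨τ3, h3a, h3b, h3⟩ := ivt_time p j0 τ2 b h2b (p a j0 + 3 * Δ / 4) (by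
    rw [hpb, h2, Set.mem_uIcc]
    rcases le_total 0 Δ with h | h
    · left; constructor <;> linarith
    · right; constructor <;> linarith)
  obtain ⟨u, hu⟩ : ∃ u : ℝ, u = |Δ| / 16 := ⟨_, rfl⟩
  have hu0 : 0 < u := by rw [hu]; positivity
  have hη : 0 < u / 16 := by positivity
  obtain ⟨δ, hδ, hmod⟩ := exists_modulus p hη
  obtain ⟨k, hk⟩ : ∃ k : ℕ, 1 ≤ k * δ := by
    obtain ⟨k, hk⟩ := exists_nat_ge (1 / δ)
    refine ⟨k, ?_⟩
    rwa [div_le_iff₀ hδ] at hk
  have len : ∀ x y : unitInterval, (y : ℝ) - x ≤ k * δ := by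
    intro x y
    have := x.2.1
    have := y.2.2
    linarith
  have fuelA : |p τ1 j0 - p a j0| = 4 * u := by
    rw [h1, hu, show p a j0 + Δ / 4 - p a j0 = Δ / 4 by ring, abs_div, abs_of_pos (by norm_num : (0:ℝ) < 4)]
    ring
  have fuelB : |p τ2 j0 - p τ1 j0| = 4 * u := by
    rw [h1, h2, hu, show p a j0 + Δ / 2 - (p a j0 + Δ / 4) = Δ / 4 by ring, abs_div,
      abs_of_pos (by norm_num : (0:ℝ) < 4)]
    ring
  have fuelC : |p τ3 j0 - p τ2 j0| = 4 * u := by
    rw [h3, h2, hu, show p a j0 + 3 * Δ / 4 - (p a j0 + Δ / 2) = Δ / 4 by ring, abs_div,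
      abs_of_pos (by norm_num : (0:ℝ) < 4)]
    ring
  have fuelD : |p b j0 - p τ3 j0| = 4 * u := by
    rw [h3, hpb, hu, show p a j0 + Δ - (p a j0 + 3 * Δ / 4) = Δ / 4 by ring, abs_div,
      abs_of_pos (by norm_num : (0:ℝ) < 4)]
    ring
  obtain ⟨x, hx⟩ : ∃ x : ℝ, x = p a 0 := ⟨_, rfl⟩
  obtain ⟨y, hy⟩ : ∃ y : ℝ, y = p a 1 := ⟨_, rfl⟩
  have sw : ∀ c : Fin 2, (Equiv.swap c j0) c = j0 := fun c => Equiv.swap_apply_left c j0
  -- leg 1
  obtain ⟨q1, hq1, a1, b1, c1, d1⟩ := leg hS (Equiv.swap 0 j0) ![x + 2 * u, y] (u / 16) δ hη hδ k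
    p hp a τ1 h1a (len _ _) (fun r r' _ h _ h' j => hmod r r' h h' j)
  have i1 : ∀ r r', τ1 ≤ r → τ1 ≤ r' → ∀ j, q1 r' j - q1 r j = p r' j - p r j := by
    intro r r' hr hr' j
    have e1 := congrArg (fun x : EuclideanSpace ℝ (Fin 2) => x j) (b1 r hr)
    have e2 := congrArg (fun x : EuclideanSpace ℝ (Fin 2) => x j) (b1 r' hr')
    simp only [PiLp.sub_apply] at e1 e2
    linarith
  have e1x : |q1 τ1 0 - (x + 2 * u)| ≤ u / 16 := by
    have := c1 0
    simp only [Matrix.cons_val_zero] at this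
    rw [sw 0, fuelA, ← hx, show x - (x + 2 * u) = -(2 * u) by ring, abs_neg,
      abs_of_pos (by positivity : 0 < 2 * u)] at this
    rwa [max_eq_right (by linarith)] at this
  have e1y : |q1 τ1 1 - y| ≤ u / 16 := by
    have := c1 1
    simp only [Matrix.cons_val_one, Matrix.cons_val_zero] at this
    rw [← hy, sub_self, abs_zero] at this
    refine this.trans (max_le ?_ le_rfl)
    have := abs_nonneg (p τ1 ((Equiv.swap 0 j0) 1) - p a ((Equiv.swap 0 j0) 1))
    linarith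
  have w1 : ∀ r, a ≤ r → r ≤ τ1 → |q1 r 1 - y| ≤ u / 8 := by
    intro r hr1 hr2
    have := d1 r hr1 hr2 1
    simp only [Matrix.cons_val_one, Matrix.cons_val_zero] at this
    rw [← hy, sub_self, abs_zero, max_eq_right hη.le] at this
    linarith
  -- leg 2
  obtain ⟨q2, hq2, a2, b2, c2, d2⟩ := leg hS (Equiv.swap 1 j0) ![x + 2 * u, y + u] (u / 16) δ hη hδ k
    q1 hq1 τ1 τ2 h2a (len _ _) (fun r r' hr h _ h' j => by
      rw [i1 r r' hr (hr.trans h)]; exact hmod r r' h h' j)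
  have i2 : ∀ r r', τ2 ≤ r → τ2 ≤ r' → ∀ j, q2 r' j - q2 r j = p r' j - p r j := by
    intro r r' hr hr' j
    have e1 := congrArg (fun x : EuclideanSpace ℝ (Fin 2) => x j) (b2 r hr)
    have e2 := congrArg (fun x : EuclideanSpace ℝ (Fin 2) => x j) (b2 r' hr')
    simp only [PiLp.sub_apply] at e1 e2
    have := i1 r r' (h2a.trans hr) (h2a.trans hr') j
    linarith
  have e2x : |q2 τ2 0 - (x + 2 * u)| ≤ u / 16 := by
    have := c2 0
    simp only [Matrix.cons_val_zero] at this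
    refine this.trans (max_le ?_ le_rfl)
    have := abs_nonneg (q1 τ2 ((Equiv.swap 1 j0) 0) - q1 τ1 ((Equiv.swap 1 j0) 0))
    linarith
  have e2y : |q2 τ2 1 - (y + u)| ≤ u / 16 := by
    have := c2 1
    simp only [Matrix.cons_val_one, Matrix.cons_val_zero] at this
    rw [sw 1, i1 τ1 τ2 le_rfl h2a, fuelB] at this
    refine this.trans (max_le ?_ le_rfl)
    have h5 : |q1 τ1 1 - (y + u)| ≤ |q1 τ1 1 - y| + u := by
      have := abs_add_le (q1 τ1 1 - y) (-u)
      rw [abs_neg, abs_of_pos hu0] at this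
      rwa [show q1 τ1 1 - y + -u = q1 τ1 1 - (y + u) by ring] at this
    linarith
  -- leg 3
  obtain ⟨q3, hq3, a3, b3, c3, d3⟩ := leg hS (Equiv.swap 0 j0) ![x + u, y + u] (u / 16) δ hη hδ k
    q2 hq2 τ2 τ3 h3a (len _ _) (fun r r' hr h _ h' j => by
      rw [i2 r r' hr (hr.trans h)]; exact hmod r r' h h' j)
  have i3 : ∀ r r', τ3 ≤ r → τ3 ≤ r' → ∀ j, q3 r' j - q3 r j = p r' j - p r j := by
    intro r r' hr hr' j
    have e1 := congrArg (fun x : EuclideanSpace ℝ (Fin 2) => x j) (b3 r hr)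
    have e2 := congrArg (fun x : EuclideanSpace ℝ (Fin 2) => x j) (b3 r' hr')
    simp only [PiLp.sub_apply] at e1 e2
    have := i2 r r' (h3a.trans hr) (h3a.trans hr') j
    linarith
  have e3x : |q3 τ3 0 - (x + u)| ≤ u / 16 := by
    have := c3 0
    simp only [Matrix.cons_val_zero] at this
    rw [sw 0, i2 τ2 τ3 le_rfl h3a, fuelC] at this
    refine this.trans (max_le ?_ le_rfl)
    have h5 : |q2 τ2 0 - (x + u)| ≤ |q2 τ2 0 - (x + 2 * u)| + u := by
      have := abs_add_le (q2 τ2 0 - (x + 2 * u)) u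
      rw [abs_of_pos hu0] at this
      rwa [show q2 τ2 0 - (x + 2 * u) + u = q2 τ2 0 - (x + u) by ring] at this
    linarith
  have e3y : |q3 τ3 1 - (y + u)| ≤ u / 16 := by
    have := c3 1
    simp only [Matrix.cons_val_one, Matrix.cons_val_zero] at this
    refine this.trans (max_le ?_ le_rfl)
    have := abs_nonneg (q2 τ3 ((Equiv.swap 0 j0) 1) - q2 τ2 ((Equiv.swap 0 j0) 1))
    linarith
  -- leg 4
  obtain ⟨q4, hq4, a4, b4, c4, d4⟩ := leg hS (Equiv.swap 1 j0) ![x + u, y - u] (u / 16) δ hη hδ k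
    q3 hq3 τ3 b h3b (len _ _) (fun r r' hr h _ h' j => by
      rw [i3 r r' hr (hr.trans h)]; exact hmod r r' h h' j)
  have e4y : |q4 b 1 - (y - u)| ≤ u / 16 := by
    have := c4 1
    simp only [Matrix.cons_val_one, Matrix.cons_val_zero] at this
    rw [sw 1, i3 τ3 b le_rfl h3b, fuelD] at this
    refine this.trans (max_le ?_ le_rfl)
    have h5 : |q3 τ3 1 - (y - u)| ≤ |q3 τ3 1 - (y + u)| + 2 * u := by
      have := abs_add_le (q3 τ3 1 - (y + u)) (2 * u)
      rw [abs_of_pos (by positivity : 0 < 2 * u)] at this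
      rwa [show q3 τ3 1 - (y + u) + 2 * u = q3 τ3 1 - (y - u) by ring] at this
    linarith
  have w4 : ∀ r, τ3 ≤ r → r ≤ b → |q4 r 0 - (x + u)| ≤ u / 8 := by
    intro r hr1 hr2
    have := d4 r hr1 hr2 0
    simp only [Matrix.cons_val_zero] at this
    rw [max_eq_right e3x] at this
    linarith
  refine ⟨q4, hq4, u / 8, by positivity, a, τ1, τ3, b, le_rfl, le_rfl, h1a, ?_, h3b, x + u / 2, x + 3 * u / 2,
    y - u / 2, y + u / 2, by linarith, by linarith, ?_, ?_, ?_, ?_, ?_, ?_⟩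
  · refine lt_of_le_of_ne (h2a.trans h3a) ?_
    intro h
    rw [h, h3] at h1
    apply hΔ0
    linarith
  · intro t ht1 ht2
    have e : q4 t = q1 t := by
      rw [a4 t (ht2.trans (h2a.trans h3a)), a3 t (ht2.trans h2a), a2 t ht2]
    rw [e]
    have := abs_le.1 (w1 t ht1 ht2)
    constructor <;> linarith
  · have e : q4 a = p a := by
      rw [a4 a (h1a.trans (h2a.trans h3a)), a3 a (h1a.trans h2a), a2 a h1a, a1 a le_rfl]
    rw [e, ← hx]
    linarith
  · have e : q4 τ1 = q1 τ1 := by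
      rw [a4 τ1 (h2a.trans h3a), a3 τ1 h2a, a2 τ1 le_rfl]
    rw [e]
    have := abs_le.1 e1x
    linarith
  · intro t ht1 ht2
    have := abs_le.1 (w4 t ht1 ht2)
    constructor <;> linarith
  · have e : q4 τ3 = q3 τ3 := a4 τ3 le_rfl
    rw [e]
    have := abs_le.1 e3y
    linarith
  · have := abs_le.1 e4y
    linarith

end Pool.Agent.SawLim
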