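import Pool.Agent.SawLim92.Weak
import Pool.Agent.SawLim92.Indep

/-!
The topological support of a law with independent increments and the symmetries of the square is
closed under turning; hence such a law charges robustly self-crossing curves unless it is `δ_0`.
-/

set_option autoImplicit false

open MeasureTheory ProbabilityTheory Filter Topology

namespace Pool.Agent.SawLim

section

variable [MeasurableSpace C(unitInterval, EuclideanSpace ℝ (Fin 2))]
  [BorelSpace C(unitInterval, EuclideanSpace ℝ (Fin 2))]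
  {ν : Measure C(unitInterval, EuclideanSpace ℝ (Fin 2))}

/-- the topological support of `ν` (curves all of whose neighbourhoods are charged) -/
def supp (ν : Measure C(unitInterval, EuclideanSpace ℝ (Fin 2))) :
    Set C(unitInterval, EuclideanSpace ℝ (Fin 2)) :=
  {p | ∀ ρ : ℝ, 0 < ρ → 0 < ν {x | ∀ t, ‖x t - p t‖ ≤ ρ}}

omit [MeasurableSpace C(unitInterval, EuclideanSpace ℝ (Fin 2))]
  [BorelSpace C(unitInterval, EuclideanSpace ℝ (Fin 2))] in
lemma norm_sp (e : Fin 2 → ℝ) (σ : Equiv.Perm (Fin 2)) (he : ∀ j, e j = 1 ∨ e j = -1)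
    (x : EuclideanSpace ℝ (Fin 2)) : ‖sp e σ x‖ = ‖x‖ := by
  rw [EuclideanSpace.norm_eq, EuclideanSpace.norm_eq]
  congr 1
  rw [← Equiv.sum_comp σ (fun j => ‖x j‖ ^ 2)]
  apply Finset.sum_congr rfl
  intro j _
  rw [sp_apply, norm_mul]
  rcases he j with h | h <;> rw [h] <;> simp

lemma measurable_eval' (t : unitInterval) :
    Measurable (fun x : C(unitInterval, EuclideanSpace ℝ (Fin 2)) => x t) :=
  (ContinuousEvalConst.continuous_eval_const t).measurable

omit [MeasurableSpace C(unitInterval, EuclideanSpace ℝ (Fin 2))]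
  [BorelSpace C(unitInterval, EuclideanSpace ℝ (Fin 2))] in
/-- a closed condition on a dense set of times holds for all times -/
lemma forall_of_dense {A : Type*} [TopologicalSpace A] {D : Set A} (hD : Dense D)
    {f : A → ℝ} (hf : Continuous f) {ε : ℝ} (h : ∀ a ∈ D, f a ≤ ε) : ∀ a, f a ≤ ε := by
  have hc : IsClosed {a | f a ≤ ε} := isClosed_le hf continuous_const
  have := hc.closure_subset_iff.2 (show D ⊆ {a | f a ≤ ε} from h)
  rw [hD.closure_eq] at this
  intro a
  exact this (Set.mem_univ a)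

/-- independence of the events the past is near a curve and the future increments are near
a curve -/
theorem indep_event [IsProbabilityMeasure ν]
    (hX : HasIndepIncrements (fun t (x : C(unitInterval, EuclideanSpace ℝ (Fin 2))) => x t) ν)
    (t : unitInterval) (g h : unitInterval → EuclideanSpace ℝ (Fin 2)) (hg : Continuous g)
    (hh : Continuous h) (ε : ℝ) :
    ν ({x | ∀ r, r ≤ t → ‖x r - x 0 - g r‖ ≤ ε} ∩ {x | ∀ r, t ≤ r → ‖x r - x t - h r‖ ≤ ε}) =
    ν {x | ∀ r, r ≤ t → ‖x r - x 0 - g r‖ ≤ ε} * ν {x | ∀ r, t ≤ r → ‖x r - x t - h r‖ ≤ ε} := by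
  have hind := past_future hX measurable_eval' 0 t (fun s => s.2.1)
  obtain ⟨D1, hD1c, hD1⟩ := TopologicalSpace.exists_countable_dense (Set.Iic t)
  obtain ⟨D2, hD2c, hD2⟩ := TopologicalSpace.exists_countable_dense (Set.Ici t)
  let S1 : Set (Set.Iic t → EuclideanSpace ℝ (Fin 2)) :=
    ⋂ r ∈ D1, {y | ‖y r - g r‖ ≤ ε}
  let S2 : Set (Set.Ici t → EuclideanSpace ℝ (Fin 2)) :=
    ⋂ r ∈ D2, {y | ‖y r - h r‖ ≤ ε}
  have hS1 : MeasurableSet S1 := by
    apply MeasurableSet.biInter hD1c
    intro r _
    apply measurableSet_le _ measurable_const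
    exact (Measurable.sub (measurable_pi_apply r) measurable_const).norm
  have hS2 : MeasurableSet S2 := by
    apply MeasurableSet.biInter hD2c
    intro r _
    apply measurableSet_le _ measurable_const
    exact (Measurable.sub (measurable_pi_apply r) measurable_const).norm
  have e1 : {x : C(unitInterval, EuclideanSpace ℝ (Fin 2)) |
      ∀ r, r ≤ t → ‖x r - x 0 - g r‖ ≤ ε} =
      (fun x (s : Set.Iic t) => x s - x 0) ⁻¹' S1 := by
    ext x
    simp only [Set.mem_ofPred_eq, Set.mem_preimage, S1, Set.mem_iInter]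
    constructor
    · intro hx r _
      exact hx r r.2
    · intro hx r hr
      have := forall_of_dense hD1 (f := fun r : Set.Iic t => ‖x r - x 0 - g r‖)
        (by fun_prop) hx
      exact this ⟨r, hr⟩
  have e2 : {x : C(unitInterval, EuclideanSpace ℝ (Fin 2)) |
      ∀ r, t ≤ r → ‖x r - x t - h r‖ ≤ ε} =
      (fun x (s : Set.Ici t) => x s - x t) ⁻¹' S2 := by
    ext x
    simp only [Set.mem_ofPred_eq, Set.mem_preimage, S2, Set.mem_iInter]
    constructor
    · intro hx r _
      exact hx r r.2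
    · intro hx r hr
      have := forall_of_dense hD2 (f := fun r : Set.Ici t => ‖x r - x t - h r‖)
        (by fun_prop) hx
      exact this ⟨r, hr⟩
  rw [e1, e2]
  exact hind.measure_inter_preimage_eq_mul S1 S2 hS1 hS2

lemma supp_start [IsProbabilityMeasure ν] (h0 : ∀ᵐ x ∂ν, x 0 = 0)
    {p : C(unitInterval, EuclideanSpace ℝ (Fin 2))} (hp : p ∈ supp ν) : p 0 = 0 := by
  by_contra hne
  have hpos : 0 < ‖p 0‖ := norm_pos_iff.2 hne
  have h1 := hp (‖p 0‖ / 2) (by positivity)
  have h2 : ν {x | ∀ t, ‖x t - p t‖ ≤ ‖p 0‖ / 2} = 0 := by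
    refine measure_mono_null ?_ (ae_iff.1 h0)
    intro x hx hx0
    have := hx 0
    rw [hx0, zero_sub, norm_neg] at this
    linarith
  rw [h2] at h1
  exact lt_irrefl _ h1

/-- the support is closed under turning -/
theorem turnClosed_supp [IsProbabilityMeasure ν] (h0 : ∀ᵐ x ∂ν, x 0 = 0)
    (hX : HasIndepIncrements (fun t (x : C(unitInterval, EuclideanSpace ℝ (Fin 2))) => x t) ν)
    (hinv : ∀ (e : Fin 2 → ℝ) (σ : Equiv.Perm (Fin 2)), (∀ j, e j = 1 ∨ e j = -1) →
      ν.map (act e σ) = ν) : TurnClosed (supp ν) := by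
  intro p hp t e σ he ρ hρ
  have hp0 := supp_start h0 hp
  have hcont : Continuous fun r : unitInterval => sp e σ (p r - p t) := by fun_prop
  have hmul := indep_event hX t (fun r => p r) (fun r => sp e σ (p r - p t)) (by fun_prop)
    hcont (ρ / 4)
  set A := {x : C(unitInterval, EuclideanSpace ℝ (Fin 2)) |
    ∀ r, r ≤ t → ‖x r - x 0 - p r‖ ≤ ρ / 4} with hA
  set B := {x : C(unitInterval, EuclideanSpace ℝ (Fin 2)) |
    ∀ r, t ≤ r → ‖x r - x t - sp e σ (p r - p t)‖ ≤ ρ / 4} with hB
  have hApos : 0 < ν A := by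
    refine lt_of_lt_of_le (hp (ρ / 8) (by positivity)) (measure_mono ?_)
    intro x hx r _
    have h1 := hx r
    have h2 := hx 0
    rw [hp0, sub_zero] at h2
    calc ‖x r - x 0 - p r‖ = ‖(x r - p r) - x 0‖ := by congr 1; abel
      _ ≤ ‖x r - p r‖ + ‖x 0‖ := norm_sub_le _ _
      _ ≤ ρ / 4 := by linarith
  have hBm : MeasurableSet B := by
    have : B = ⋂ r : unitInterval, ⋂ _ : t ≤ r, {x | ‖x r - x t - sp e σ (p r - p t)‖ ≤ ρ / 4} := by
      ext x
      simp [B]
    rw [this]
    apply IsClosed.measurableSet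
    apply isClosed_iInter
    intro r
    apply isClosed_iInter
    intro _
    apply isClosed_le _ continuous_const
    have c1 : Continuous fun x : C(unitInterval, EuclideanSpace ℝ (Fin 2)) => x r :=
      ContinuousEvalConst.continuous_eval_const r
    have c2 : Continuous fun x : C(unitInterval, EuclideanSpace ℝ (Fin 2)) => x t :=
      ContinuousEvalConst.continuous_eval_const t
    exact ((c1.sub c2).sub continuous_const).norm
  have hBpos : 0 < ν B := by
    rw [← hinv e σ he, Measure.map_apply (continuous_act e σ).measurable hBm]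
    refine lt_of_lt_of_le (hp (ρ / 8) (by positivity)) (measure_mono ?_)
    intro x hx r _
    have h1 := hx r
    have h2 := hx t
    rw [act_apply, act_apply, ← sp_sub, ← sp_sub, norm_sp e σ he]
    calc ‖x r - x t - (p r - p t)‖ = ‖(x r - p r) - (x t - p t)‖ := by congr 1; abel
      _ ≤ ‖x r - p r‖ + ‖x t - p t‖ := norm_sub_le _ _
      _ ≤ ρ / 4 := by linarith
  have hAB : 0 < ν (A ∩ B) := by
    rw [hmul]
    exact ENNReal.mul_pos hApos.ne' hBpos.ne'
  have hae : ν (A ∩ B) ≤ ν {x | ∀ r, ‖x r - turn t e σ p r‖ ≤ ρ} := by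
    apply measure_mono_ae
    filter_upwards [h0] with x hx0 hxAB
    have hxA := hxAB.1
    have hxB := hxAB.2
    show ∀ r, ‖x r - turn t e σ p r‖ ≤ ρ
    intro r
    rcases le_total r t with hr | hr
    · rw [turn_le _ _ _ hr]
      have := hxA r hr
      rw [hx0, sub_zero] at this
      linarith
    · rw [turn_ge _ _ _ hr]
      have h1 := hxA t le_rfl
      rw [hx0, sub_zero] at h1
      have h2 := hxB r hr
      calc ‖x r - (p t + sp e σ (p r - p t))‖
          = ‖(x t - p t) + (x r - x t - sp e σ (p r - p t))‖ := by congr 1; abel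
        _ ≤ ‖x t - p t‖ + ‖x r - x t - sp e σ (p r - p t)‖ := norm_add_le _ _
        _ ≤ ρ := by linarith
  exact lt_of_lt_of_le hAB hae

/-- if the only point of the support is `0` then `ν = δ_0` -/
theorem eq_dirac_of_supp [IsProbabilityMeasure ν]
    (h : ∀ p ∈ supp ν, p = 0) : ν = Measure.dirac 0 := by
  have hnull : ν ({0}ᶜ : Set C(unitInterval, EuclideanSpace ℝ (Fin 2))) = 0 := by
    apply measure_null_of_locally_null
    intro p hp
    have hp' : p ∉ supp ν := fun hc => hp (h p hc)
    simp only [supp, Set.mem_ofPred_eq, not_forall] at hp'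
    obtain ⟨ρ, hρ, hnull⟩ := hp'
    refine ⟨Metric.ball p ρ, mem_nhdsWithin_of_mem_nhds (Metric.ball_mem_nhds p hρ), ?_⟩
    refine measure_mono_null ?_ (le_antisymm (not_lt.1 hnull) zero_le)
    intro x hx t
    rw [Metric.mem_ball, dist_eq_norm] at hx
    have := (x - p).norm_coe_le_norm t
    rw [ContinuousMap.sub_apply] at this
    linarith
  ext A hA
  rw [Measure.dirac_apply' _ hA]
  by_cases h0 : (0 : C(unitInterval, EuclideanSpace ℝ (Fin 2))) ∈ A
  · rw [Set.indicator_of_mem h0, Pi.one_apply]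
    rw [prob_compl_eq_zero_iff (MeasurableSet.singleton 0)] at hnull
    apply le_antisymm prob_le_one
    rw [← hnull]
    exact measure_mono (Set.singleton_subset_iff.2 h0)
  · rw [Set.indicator_of_notMem h0]
    refine measure_mono_null ?_ hnull
    intro x hx hx0
    rw [Set.mem_singleton_iff] at hx0
    rw [hx0] at hx
    exact h0 hx

/-- A law with independent increments and the symmetries of the square which does not charge
robustly self-crossing curves is `δ_0`. -/
theorem dirac_of_indep [IsProbabilityMeasure ν] (h0 : ∀ᵐ x ∂ν, x 0 = 0)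
    (hX : HasIndepIncrements (fun t (x : C(unitInterval, EuclideanSpace ℝ (Fin 2))) => x t) ν)
    (hinv : ∀ (e : Fin 2 → ℝ) (σ : Equiv.Perm (Fin 2)), (∀ j, e j = 1 ∨ e j = -1) →
      ν.map (act e σ) = ν) (hcr : ν Crossing = 0) : ν = Measure.dirac 0 := by
  apply eq_dirac_of_supp
  intro p hp
  have hp0 := supp_start h0 hp
  ext t j
  by_contra hne
  have hne' : p 0 j ≠ p t j := by
    rw [hp0]
    exact fun h => hne h.symm
  obtain ⟨q, hq, η, hη, hcross⟩ := steer (turnClosed_supp h0 hX hinv) p hp 0 t t.2.1 j hne'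
  have h1 := hq (η / 2) (by positivity)
  have h2 : ν {x | ∀ t, ‖x t - q t‖ ≤ η / 2} ≤ ν Crossing := by
    apply measure_mono
    intro x hx
    exact ⟨η / 2, by positivity, hcross.cross.near hx⟩
  rw [hcr] at h2
  exact absurd h1 (not_lt.2 h2)

/-- **A weak limit of rescaled self-avoiding walks with independent increments is `δ_0`.** -/
theorem limit_indep [IsProbabilityMeasure ν] {φ : ℕ → ℕ} {b : ℕ → ℝ} (hφ : Tendsto φ atTop atTop)
    (hb : ∀ k, 0 < b k) (hw : WeakLim φ b ν)
    (hX : HasIndepIncrements (fun t (x : C(unitInterval, EuclideanSpace ℝ (Fin 2))) => x t) ν) :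
    ν = Measure.dirac 0 :=
  dirac_of_indep (start_zero hφ hw) hX (inv_all (inv_swp hw) (inv_vrf hw))
    (crossing_null hφ hb hw)

end

end Pool.Agent.SawLim
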