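import Pool.Agent.SawLim92.Steer

/-!
Consequences of weak convergence of rescaled self-avoiding walks: the mesh tends to `0`, the limit
gives mass `0` to the robustly self-crossing curves, starts at the origin and is invariant under the
symmetries of the square.
-/

set_option autoImplicit false

open MeasureTheory Filter Topology

namespace Pool.Agent.SawLim

/-- `Law(b_k X_{n_k}) → ν` weakly on `C([0,1], ℝ²)`. -/
def WeakLim (φ : ℕ → ℕ) (b : ℕ → ℝ)
    [MeasurableSpace C(unitInterval, EuclideanSpace ℝ (Fin 2))]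
    (ν : Measure C(unitInterval, EuclideanSpace ℝ (Fin 2))) : Prop :=
  ∀ F : BoundedContinuousFunction C(unitInterval, EuclideanSpace ℝ (Fin 2)) ℝ,
    Tendsto (fun k => avg (φ k) (fun w => F (b k • X (φ k) w))) atTop (𝓝 (∫ x, F x ∂ν))

section

variable [MeasurableSpace C(unitInterval, EuclideanSpace ℝ (Fin 2))]
  [BorelSpace C(unitInterval, EuclideanSpace ℝ (Fin 2))]
  {ν : Measure C(unitInterval, EuclideanSpace ℝ (Fin 2))}
  {φ : ℕ → ℕ} {b : ℕ → ℝ}

lemma avg_congr (n : ℕ) {f g : (Fin (n + 1) → ℤ × ℤ) → ℝ} (h : ∀ w ∈ saws n, f w = g w) :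
    avg n f = avg n g := by
  rw [avg_eq, avg_eq, Finset.sum_congr rfl h]

/-- if the test function vanishes frequently on the walks, its integral is `0` -/
lemma integral_zero_of_frequently (hw : WeakLim φ b ν)
    (F : BoundedContinuousFunction C(unitInterval, EuclideanSpace ℝ (Fin 2)) ℝ)
    (h : ∃ᶠ k in atTop, ∀ w ∈ saws (φ k), F (b k • X (φ k) w) = 0) : ∫ x, F x ∂ν = 0 := by
  by_contra hne
  have h1 := hw F
  have h2 : ∀ᶠ k in atTop, avg (φ k) (fun w => F (b k • X (φ k) w)) ≠ 0 := h1.eventually_ne hne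
  obtain ⟨k, hk1, hk2⟩ := (h.and_eventually h2).exists
  apply hk2
  rw [avg_congr (φ k) (g := fun _ => 0) hk1]
  simp [avg_eq]

/-- a Urysohn type test function -/
noncomputable def bump (q : C(unitInterval, EuclideanSpace ℝ (Fin 2))) (ρ : ℝ) :
    BoundedContinuousFunction C(unitInterval, EuclideanSpace ℝ (Fin 2)) ℝ :=
  BoundedContinuousFunction.ofNormedAddCommGroup (fun x => max 0 (min 1 (ρ - ‖x - q‖)))
    (by fun_prop) 1 (by
      intro x
      rw [Real.norm_eq_abs, abs_of_nonneg (le_max_left _ _)]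
      exact max_le zero_le_one (min_le_left _ _))

lemma bump_apply (q : C(unitInterval, EuclideanSpace ℝ (Fin 2))) (ρ : ℝ)
    (x : C(unitInterval, EuclideanSpace ℝ (Fin 2))) :
    bump q ρ x = max 0 (min 1 (ρ - ‖x - q‖)) := rfl

lemma bump_nonneg (q : C(unitInterval, EuclideanSpace ℝ (Fin 2))) (ρ : ℝ)
    (x : C(unitInterval, EuclideanSpace ℝ (Fin 2))) : 0 ≤ bump q ρ x := le_max_left _ _

lemma bump_eq_zero {q : C(unitInterval, EuclideanSpace ℝ (Fin 2))} {ρ : ℝ}
    {x : C(unitInterval, EuclideanSpace ℝ (Fin 2))} (h : ρ ≤ ‖x - q‖) : bump q ρ x = 0 := by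
  rw [bump_apply]
  apply max_eq_left
  exact (min_le_right _ _).trans (by linarith)

lemma bump_pos {q : C(unitInterval, EuclideanSpace ℝ (Fin 2))} {ρ : ℝ}
    {x : C(unitInterval, EuclideanSpace ℝ (Fin 2))} (h : ‖x - q‖ < ρ) : 0 < bump q ρ x := by
  rw [bump_apply]
  exact lt_max_of_lt_right (lt_min one_pos (by linarith))

/-- if the integral of the bump vanishes then the ball is null -/
lemma ball_null [IsFiniteMeasure ν] {q : C(unitInterval, EuclideanSpace ℝ (Fin 2))} {ρ : ℝ}
    (h : ∫ x, bump q ρ x ∂ν = 0) : ν (Metric.ball q ρ) = 0 := by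
  have hint : Integrable (fun x => bump q ρ x) ν := (bump q ρ).integrable ν
  rw [integral_eq_zero_iff_of_nonneg (fun x => bump_nonneg q ρ x) hint] at h
  refine measure_mono_null ?_ (ae_iff.1 h)
  intro x hx
  rw [Metric.mem_ball, dist_eq_norm] at hx
  exact (bump_pos hx).ne'

/-- deterministic lower bound for the size of a walk -/
lemma exists_large {n : ℕ} (M : ℕ) (hn : (2 * M + 1) ^ 2 ≤ n) {w : Fin (n + 1) → ℤ × ℤ}
    (h : IsSAW n w) : ∃ k, (M : ℝ) ≤ ‖pt (w k)‖ := by
  classical
  by_contra hcon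
  push Not at hcon
  have hb : ∀ k, w k ∈ (Finset.Icc (-(M : ℤ)) M ×ˢ Finset.Icc (-(M : ℤ)) M) := by
    intro k
    have h2 := abs_coord_le (pt (w k)) 0
    have h3 := abs_coord_le (pt (w k)) 1
    have p0 : (pt (w k)) 0 = ((w k).1 : ℝ) := by simp [pt]
    have p1 : (pt (w k)) 1 = ((w k).2 : ℝ) := by simp [pt]
    rw [p0] at h2
    rw [p1] at h3
    have h4 := abs_le.1 (h2.trans (hcon k).le)
    have h5 := abs_le.1 (h3.trans (hcon k).le)
    rw [Finset.mem_product, Finset.mem_Icc, Finset.mem_Icc]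
    refine ⟨⟨?_, ?_⟩, ⟨?_, ?_⟩⟩
    · have : ((-(M : ℤ) : ℤ) : ℝ) ≤ ((w k).1 : ℝ) := by push_cast; exact h4.1
      exact_mod_cast this
    · have : ((w k).1 : ℝ) ≤ (((M : ℤ)) : ℝ) := by push_cast; exact h4.2
      exact_mod_cast this
    · have : ((-(M : ℤ) : ℤ) : ℝ) ≤ ((w k).2 : ℝ) := by push_cast; exact h5.1
      exact_mod_cast this
    · have : ((w k).2 : ℝ) ≤ (((M : ℤ)) : ℝ) := by push_cast; exact h5.2
      exact_mod_cast this
  have hc := Finset.card_le_card_of_injOn (s := Finset.univ) w (fun k _ => hb k)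
    (fun a _ c _ hac => h.2.2 hac)
  rw [Finset.card_univ, Fintype.card_fin, Finset.card_product, Int.card_Icc] at hc
  have e : ((M : ℤ) + 1 - -(M : ℤ)).toNat = 2 * M + 1 := by omega
  rw [e] at hc
  nlinarith

lemma norm_X_ge {n : ℕ} (hn : 1 ≤ n) (w : Fin (n + 1) → ℤ × ℤ) (k : Fin (n + 1)) :
    (s n)⁻¹ * ‖pt (w k)‖ ≤ ‖X n w‖ := by
  have hn' : (0 : ℝ) < n := by exact_mod_cast hn
  have hk : (k : ℕ) ≤ n := by have := k.2; omega
  have hk' : ((k : ℕ) : ℝ) ≤ n := by exact_mod_cast hk
  let t : unitInterval := ⟨((k : ℕ) : ℝ) / n, by positivity, by rw [div_le_one hn']; exact hk'⟩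
  have ht : (n : ℝ) * (t : ℝ) = (k : ℕ) := by
    show (n : ℝ) * (((k : ℕ) : ℝ) / n) = (k : ℕ)
    field_simp
  have h1 := X_div w k hk t ht (by omega)
  have h2 := (X n w).norm_coe_le_norm t
  rw [h1, norm_smul, norm_inv, Real.norm_of_nonneg (s_nonneg n)] at h2
  exact h2

/-- the mesh of a weakly convergent sequence tends to `0` -/
theorem mesh_tendsto [IsProbabilityMeasure ν] (hφ : Tendsto φ atTop atTop) (hb : ∀ k, 0 < b k)
    (hw : WeakLim φ b ν) {ε : ℝ} (hε : 0 < ε) : ∀ᶠ k in atTop, b k * (s (φ k))⁻¹ < ε := by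
  by_contra hcon
  rw [Filter.not_eventually] at hcon
  -- every ball around 0 is null
  have hnull : ∀ R : ℕ, ν (Metric.ball 0 (R : ℝ)) = 0 := by
    intro R
    apply ball_null
    apply integral_zero_of_frequently hw
    obtain ⟨M, hM⟩ := exists_nat_ge ((R : ℝ) / ε)
    have hlarge : ∀ᶠ k in atTop, (2 * M + 1) ^ 2 ≤ φ k := hφ.eventually_ge_atTop _
    refine (hcon.and_eventually hlarge).mono ?_
    rintro k ⟨hk1, hk2⟩ w hw'
    push Not at hk1
    have hn : 1 ≤ φ k := le_trans (Nat.one_le_pow _ _ (by omega)) hk2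
    have hsaw := mem_saws.1 hw'
    obtain ⟨i, hi⟩ := exists_large M hk2 hsaw
    apply bump_eq_zero
    rw [sub_zero, norm_smul, Real.norm_of_nonneg (hb k).le]
    have h1 := norm_X_ge hn w i
    have hs : 0 < (s (φ k))⁻¹ := inv_pos.2 (s_pos hn)
    have hR : (R : ℝ) ≤ ε * M := by
      rw [div_le_iff₀ hε] at hM
      linarith
    calc (R : ℝ) ≤ ε * M := hR
      _ ≤ (b k * (s (φ k))⁻¹) * ‖pt (w i)‖ :=
          mul_le_mul hk1 hi (by positivity) (by have := hb k; positivity)
      _ = b k * ((s (φ k))⁻¹ * ‖pt (w i)‖) := by ring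
      _ ≤ b k * ‖X (φ k) w‖ := mul_le_mul_of_nonneg_left h1 (hb k).le
  have huniv : ν Set.univ = 0 := by
    have : (Set.univ : Set C(unitInterval, EuclideanSpace ℝ (Fin 2))) =
        ⋃ R : ℕ, Metric.ball 0 (R : ℝ) := by
      ext x
      simp only [Set.mem_univ, Set.mem_iUnion, Metric.mem_ball, dist_zero_right, true_iff]
      exact exists_nat_gt ‖x‖
    rw [this]
    exact measure_iUnion_null hnull
  rw [measure_univ] at huniv
  exact one_ne_zero huniv

/-- **No limit law charges robustly self-crossing curves.** -/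
theorem crossing_null [IsProbabilityMeasure ν] (hφ : Tendsto φ atTop atTop) (hb : ∀ k, 0 < b k)
    (hw : WeakLim φ b ν) : ν Crossing = 0 := by
  apply measure_null_of_locally_null
  rintro q ⟨η, hη, hq⟩
  refine ⟨Metric.ball q (η / 2), mem_nhdsWithin_of_mem_nhds (Metric.ball_mem_nhds q (by positivity)),
    ?_⟩
  apply ball_null
  apply integral_zero_of_frequently hw
  apply Eventually.frequently
  filter_upwards [mesh_tendsto hφ hb hw (by positivity : 0 < η / 4), hφ.eventually_ge_atTop 1]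
    with k hk hn w hw'
  apply bump_eq_zero
  by_contra hcon
  push Not at hcon
  have h1 : Cross (η / 2) (b k • X (φ k) w) := by
    apply hq.near
    intro t
    have := (b k • X (φ k) w - q).norm_coe_le_norm t
    rw [ContinuousMap.sub_apply] at this
    linarith
  exact not_cross_X hn (mem_saws.1 hw') (hb k) (by linarith) h1

/-- the limit starts at the origin -/
theorem start_zero [IsProbabilityMeasure ν] (hφ : Tendsto φ atTop atTop)
    (hw : WeakLim φ b ν) : ∀ᵐ x ∂ν, x 0 = 0 := by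
  have hnull : ν {x : C(unitInterval, EuclideanSpace ℝ (Fin 2)) | x 0 ≠ 0} = 0 := by
    apply measure_null_of_locally_null
    intro q hq
    have hq' : 0 < ‖q 0‖ := norm_pos_iff.2 hq
    refine ⟨Metric.ball q ‖q 0‖, mem_nhdsWithin_of_mem_nhds (Metric.ball_mem_nhds q hq'), ?_⟩
    apply ball_null
    apply integral_zero_of_frequently hw
    apply Eventually.frequently
    filter_upwards [hφ.eventually_ge_atTop 1] with k hn w hw'
    apply bump_eq_zero
    have h1 := (b k • X (φ k) w - q).norm_coe_le_norm 0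
    have h2 : (b k • X (φ k) w - q) 0 = - q 0 := by
      rw [ContinuousMap.sub_apply, ContinuousMap.smul_apply, X_zero (by omega),
        (mem_saws.1 hw').1]
      have : pt 0 = 0 := by
        ext j
        fin_cases j <;> simp [pt]
      rw [this]
      simp
    rw [h2, norm_neg] at h1
    exact h1
  rw [ae_iff]
  exact hnull

/-- acting with a signed permutation matrix on a curve -/
noncomputable def act (e : Fin 2 → ℝ) (σ : Equiv.Perm (Fin 2))
    (x : C(unitInterval, EuclideanSpace ℝ (Fin 2))) : C(unitInterval, EuclideanSpace ℝ (Fin 2)) :=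
  ContinuousMap.comp ⟨sp e σ, continuous_sp e σ⟩ x

omit [MeasurableSpace C(unitInterval, EuclideanSpace ℝ (Fin 2))]
  [BorelSpace C(unitInterval, EuclideanSpace ℝ (Fin 2))] in
@[simp] lemma act_apply (e : Fin 2 → ℝ) (σ : Equiv.Perm (Fin 2))
    (x : C(unitInterval, EuclideanSpace ℝ (Fin 2))) (t : unitInterval) :
    act e σ x t = sp e σ (x t) := rfl

omit [MeasurableSpace C(unitInterval, EuclideanSpace ℝ (Fin 2))]
  [BorelSpace C(unitInterval, EuclideanSpace ℝ (Fin 2))] in
lemma continuous_act (e : Fin 2 → ℝ) (σ : Equiv.Perm (Fin 2)) : Continuous (act e σ) :=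
  ContinuousMap.continuous_postcomp _

omit [MeasurableSpace C(unitInterval, EuclideanSpace ℝ (Fin 2))]
  [BorelSpace C(unitInterval, EuclideanSpace ℝ (Fin 2))] in
lemma X_swp (n : ℕ) (w : Fin (n + 1) → ℤ × ℤ) :
    X n (fun k => swp (w k)) = act (fun _ => 1) (Equiv.swap 0 1) (X n w) := by
  ext t j
  rw [act_apply, sp_apply]
  show ((s n)⁻¹ • (pt (swp (w 0)) + ∑ k : Fin n,
    (max 0 (min 1 ((n : ℝ) * (t : ℝ) - (k : ℝ)))) • (pt (swp (w k.succ)) - pt (swp (w k.castSucc)))))
      j = 1 * ((s n)⁻¹ • (pt (w 0) + ∑ k : Fin n,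
    (max 0 (min 1 ((n : ℝ) * (t : ℝ) - (k : ℝ)))) • (pt (w k.succ) - pt (w k.castSucc))))
      (Equiv.swap 0 1 j)
  have h0 : ∀ q : ℤ × ℤ, (pt (swp q)) j = (pt q) (Equiv.swap 0 1 j) := by
    intro q
    fin_cases j <;> simp [pt, swp]
  simp only [PiLp.smul_apply, PiLp.add_apply, WithLp.ofLp_sum, Finset.sum_apply, PiLp.sub_apply,
    h0, smul_eq_mul, one_mul]

omit [MeasurableSpace C(unitInterval, EuclideanSpace ℝ (Fin 2))]
  [BorelSpace C(unitInterval, EuclideanSpace ℝ (Fin 2))] in
lemma X_vrf (n : ℕ) (w : Fin (n + 1) → ℤ × ℤ) :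
    X n (fun k => vrf (w k)) = act ![1, -1] 1 (X n w) := by
  ext t j
  rw [act_apply, sp_apply]
  show ((s n)⁻¹ • (pt (vrf (w 0)) + ∑ k : Fin n,
    (max 0 (min 1 ((n : ℝ) * (t : ℝ) - (k : ℝ)))) • (pt (vrf (w k.succ)) - pt (vrf (w k.castSucc)))))
      j = ![1, -1] j * ((s n)⁻¹ • (pt (w 0) + ∑ k : Fin n,
    (max 0 (min 1 ((n : ℝ) * (t : ℝ) - (k : ℝ)))) • (pt (w k.succ) - pt (w k.castSucc)))) j
  have h0 : ∀ q : ℤ × ℤ, (pt (vrf q)) j = ![1, -1] j * (pt q) j := by
    intro q
    fin_cases j <;> simp [pt, vrf]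
  simp only [PiLp.smul_apply, PiLp.add_apply, WithLp.ofLp_sum, Finset.sum_apply, PiLp.sub_apply,
    h0, smul_eq_mul, mul_add, Finset.mul_sum, mul_sub]
  congr 1
  · ring
  · apply Finset.sum_congr rfl
    intro k _
    ring

omit [MeasurableSpace C(unitInterval, EuclideanSpace ℝ (Fin 2))]
  [BorelSpace C(unitInterval, EuclideanSpace ℝ (Fin 2))] in
lemma sum_swp (n : ℕ) (f : (Fin (n + 1) → ℤ × ℤ) → ℝ) :
    avg n (fun w => f (fun k => swp (w k))) = avg n f := by
  rw [avg_eq, avg_eq]
  congr 1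
  apply Finset.sum_bij' (fun w _ => fun k => swp (w k)) (fun w _ => fun k => swp (w k))
  · intro w hw; exact mem_saws.2 (isSAW_swp (mem_saws.1 hw))
  · intro w hw; exact mem_saws.2 (isSAW_swp (mem_saws.1 hw))
  · intro w _; funext k; exact swp_swp _
  · intro w _; funext k; exact swp_swp _
  · intro w _; rfl

omit [MeasurableSpace C(unitInterval, EuclideanSpace ℝ (Fin 2))]
  [BorelSpace C(unitInterval, EuclideanSpace ℝ (Fin 2))] in
lemma sum_vrf (n : ℕ) (f : (Fin (n + 1) → ℤ × ℤ) → ℝ) :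
    avg n (fun w => f (fun k => vrf (w k))) = avg n f := by
  rw [avg_eq, avg_eq]
  congr 1
  apply Finset.sum_bij' (fun w _ => fun k => vrf (w k)) (fun w _ => fun k => vrf (w k))
  · intro w hw; exact mem_saws.2 (isSAW_vrf (mem_saws.1 hw))
  · intro w hw; exact mem_saws.2 (isSAW_vrf (mem_saws.1 hw))
  · intro w _; funext k; exact vrf_vrf _
  · intro w _; funext k; exact vrf_vrf _
  · intro w _; rfl

omit [MeasurableSpace C(unitInterval, EuclideanSpace ℝ (Fin 2))]
  [BorelSpace C(unitInterval, EuclideanSpace ℝ (Fin 2))] in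
lemma act_smul (e : Fin 2 → ℝ) (σ : Equiv.Perm (Fin 2)) (c : ℝ)
    (x : C(unitInterval, EuclideanSpace ℝ (Fin 2))) : act e σ (c • x) = c • act e σ x := by
  ext t j
  simp only [act_apply, sp_apply, ContinuousMap.smul_apply, PiLp.smul_apply, smul_eq_mul]
  ring

lemma map_eq_of_integral [IsProbabilityMeasure ν] (e : Fin 2 → ℝ) (σ : Equiv.Perm (Fin 2))
    (h : ∀ F : BoundedContinuousFunction C(unitInterval, EuclideanSpace ℝ (Fin 2)) ℝ,
      ∫ x, F (act e σ x) ∂ν = ∫ x, F x ∂ν) : ν.map (act e σ) = ν := by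
  have hm : Measurable (act e σ) := (continuous_act e σ).measurable
  have : IsProbabilityMeasure (ν.map (act e σ)) :=
    Measure.isProbabilityMeasure_map hm.aemeasurable
  apply ext_of_forall_integral_eq_of_IsFiniteMeasure
  intro F
  rw [integral_map hm.aemeasurable F.continuous.aestronglyMeasurable]
  exact h F

lemma inv_swp [IsProbabilityMeasure ν] (hw : WeakLim φ b ν) :
    ν.map (act (fun _ => 1) (Equiv.swap 0 1)) = ν := by
  apply map_eq_of_integral
  intro F
  have h1 := hw F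
  have h2 := hw (F.compContinuous ⟨act (fun _ => 1) (Equiv.swap 0 1), continuous_act _ _⟩)
  refine tendsto_nhds_unique h2 ?_
  refine h1.congr ?_
  intro k
  rw [← sum_swp]
  apply avg_congr
  intro w _
  rw [X_swp, ← act_smul]
  rfl

lemma inv_vrf [IsProbabilityMeasure ν] (hw : WeakLim φ b ν) :
    ν.map (act ![1, -1] 1) = ν := by
  apply map_eq_of_integral
  intro F
  have h1 := hw F
  have h2 := hw (F.compContinuous ⟨act ![1, -1] 1, continuous_act _ _⟩)
  refine tendsto_nhds_unique h2 ?_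
  refine h1.congr ?_
  intro k
  rw [← sum_vrf]
  apply avg_congr
  intro w _
  rw [X_vrf, ← act_smul]
  rfl

omit [MeasurableSpace C(unitInterval, EuclideanSpace ℝ (Fin 2))]
  [BorelSpace C(unitInterval, EuclideanSpace ℝ (Fin 2))] in
lemma act_act (e e' : Fin 2 → ℝ) (σ σ' : Equiv.Perm (Fin 2))
    (x : C(unitInterval, EuclideanSpace ℝ (Fin 2))) :
    act e σ (act e' σ' x) = act (fun j => e j * e' (σ j)) (σ' * σ) x := by
  ext t j
  simp only [act_apply, sp_apply, Equiv.Perm.mul_apply]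
  ring

lemma inv_comp {e e' : Fin 2 → ℝ} {σ σ' : Equiv.Perm (Fin 2)} (h : ν.map (act e σ) = ν)
    (h' : ν.map (act e' σ') = ν) : ν.map (act (fun j => e j * e' (σ j)) (σ' * σ)) = ν := by
  have hm : Measurable (act e σ) := (continuous_act e σ).measurable
  have hm' : Measurable (act e' σ') := (continuous_act e' σ').measurable
  have : act (fun j => e j * e' (σ j)) (σ' * σ) = act e σ ∘ act e' σ' := by
    funext x
    rw [Function.comp, act_act]
  rw [this, ← Measure.map_map hm hm', h', h]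

/-- invariance of a measure under the symmetry group of the square, from two generators -/
theorem inv_all (h1 : ν.map (act (fun _ => 1) (Equiv.swap 0 1)) = ν)
    (h2 : ν.map (act ![1, -1] 1) = ν) (e : Fin 2 → ℝ) (σ : Equiv.Perm (Fin 2))
    (he : ∀ j, e j = 1 ∨ e j = -1) : ν.map (act e σ) = ν := by
  -- the reflection of the first coordinate
  have h3 : ν.map (act ![-1, 1] 1) = ν := by
    have := inv_comp (inv_comp h1 h2) h1
    convert this using 2
    · congr 1
      · funext j
        fin_cases j <;> simp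
      · ext j
        fin_cases j <;> simp
  have h4 : ν.map (act ![-1, -1] 1) = ν := by
    have := inv_comp h2 h3
    convert this using 2
    congr 1
    funext j
    fin_cases j <;> simp
  have h0 : ν.map (act ![1, 1] 1) = ν := by
    have := inv_comp h2 h2
    convert this using 2
    congr 1
    funext j
    fin_cases j <;> simp
  have he' : ν.map (act e 1) = ν := by
    have e2 : e = ![e 0, e 1] := by
      funext j
      fin_cases j <;> rfl
    rw [e2]
    rcases he 0 with a | a <;> rcases he 1 with c | c <;> rw [a, c] <;> assumption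
  have hσ : σ = 1 ∨ σ = Equiv.swap 0 1 := by
    revert σ
    decide
  rcases hσ with rfl | rfl
  · exact he'
  · have := inv_comp he' h1
    convert this using 2
    congr 1
    funext j
    simp

end

end Pool.Agent.SawLim
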